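import Pool.Agent.N389.AS.Engine
import Pool.Agent.H287R3.RA.APa

/-!
# Asymptotic forms of the bound, and the lower bound
-/

set_option autoImplicit false
set_option linter.unusedSectionVars false

namespace Pool.Agent.N389.AS

open Finset Filter Topology
open Pool.Agent.TH197.Sym (Balanced Free Symm)

lemma half_lt_log_two : (1 : ℝ) / 2 < Real.log 2 := by
  have := Real.log_two_gt_d9
  linarith

lemma natLog_le (m : ℕ) (hm : m ≠ 0) : (Nat.log 2 m : ℝ) ≤ 2 * Real.log m := by
  have h1 : (2 : ℝ) ^ Nat.log 2 m ≤ m := by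
    exact_mod_cast Nat.pow_log_le_self 2 hm
  have h2 := Real.log_le_log (by positivity) h1
  rw [Real.log_pow] at h2
  have h3 : (0 : ℝ) ≤ (Nat.log 2 m : ℝ) := Nat.cast_nonneg _
  nlinarith [half_lt_log_two]

lemma ell_le (g V : ℕ) (hV : V ≠ 0) :
    (ell g V : ℝ) ≤ 2 * (g + 1) * (1 + Real.log V) := by
  have h1 := natLog_le V hV
  have h0 : 0 ≤ Real.log V := Real.log_natCast_nonneg V
  have hg : (0 : ℝ) ≤ g := Nat.cast_nonneg g
  unfold ell
  push_cast
  nlinarith

lemma jay_le (g V : ℕ) (hV : V ≠ 0) :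
    (jay g V : ℝ) ≤ (4 * Real.log (2 * (g + 1)) + 4) * Real.log (2 + Real.log V) := by
  have h0 : 0 ≤ Real.log V := Real.log_natCast_nonneg V
  have hg : (0 : ℝ) ≤ g := Nat.cast_nonneg g
  have he : ell g V ≠ 0 := by unfold ell; omega
  have h1 := natLog_le (ell g V) he
  have h2 : Real.log (ell g V) ≤ Real.log (2 * (g + 1) * (1 + Real.log V)) :=
    Real.log_le_log (by exact_mod_cast Nat.pos_of_ne_zero he) (ell_le g V hV)
  rw [Real.log_mul (by positivity) (by positivity)] at h2
  have h3 : Real.log (1 + Real.log V) ≤ Real.log (2 + Real.log V) :=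
    Real.log_le_log (by positivity) (by linarith)
  have h4 : Real.log 2 ≤ Real.log (2 + Real.log V) :=
    Real.log_le_log (by norm_num) (by linarith)
  have h5 := half_lt_log_two
  have h6 : 0 ≤ Real.log (2 * ((g : ℝ) + 1)) := Real.log_nonneg (by linarith)
  unfold jay
  push_cast
  nlinarith

variable {X Q : Type} [Fintype X] [DecidableEq X] [Fintype Q] [DecidableEq Q] {k : ℕ}
variable {F : Fin k → Q → X} {nt : Q → Prop}

lemma Dec.mono {V V' n : ℕ} (h : V ≤ V') {A : Finset (Fin n → X)} (hA : Dec V A) : Dec V' A := by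
  obtain ⟨G, i, f, D, h1, h2⟩ := hA
  exact ⟨G, i, f, D, h1.trans h, h2⟩

lemma exists_pos (V : ℕ) : ∃ V' : ℕ, V' ≠ 0 ∧ V ≤ V' ∧ Real.log V = Real.log V' := by
  rcases Nat.eq_zero_or_pos V with h0 | h0
  · exact ⟨1, one_ne_zero, by omega, by simp [h0]⟩
  · exact ⟨V, by omega, le_rfl, rfl⟩

/-- the combination of the parameters -/
lemma kjl_le (K g : ℕ) : ∃ C : ℝ, 0 < C ∧ ∀ V : ℕ, V ≠ 0 →
    ((K * jay g V * ell g V : ℕ) : ℝ) ≤ C * (1 + Real.log V) * Real.log (2 + Real.log V) := by
  refine ⟨(K * ((4 * Real.log (2 * (g + 1)) + 4) * (2 * (g + 1)))) + 1, ?_, ?_⟩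
  · have h6 : 0 ≤ Real.log (2 * ((g : ℝ) + 1)) := by
      apply Real.log_nonneg
      have : (0 : ℝ) ≤ g := Nat.cast_nonneg g
      linarith
    positivity
  · intro V hV
    have h0 : 0 ≤ Real.log V := Real.log_natCast_nonneg V
    have h6 : 0 ≤ Real.log (2 * ((g : ℝ) + 1)) := by
      apply Real.log_nonneg
      have : (0 : ℝ) ≤ g := Nat.cast_nonneg g
      linarith
    have h7 : 0 < Real.log (2 + Real.log V) := Real.log_pos (by linarith)
    push_cast
    calc (K : ℝ) * jay g V * ell g V ≤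
        K * ((4 * Real.log (2 * (g + 1)) + 4) * Real.log (2 + Real.log V)) *
          (2 * (g + 1) * (1 + Real.log V)) := by
          apply mul_le_mul _ (ell_le g V hV) (Nat.cast_nonneg _) (by positivity)
          exact mul_le_mul_of_nonneg_left (jay_le g V hV) (Nat.cast_nonneg _)
      _ = (K * ((4 * Real.log (2 * (g + 1)) + 4) * (2 * (g + 1)))) * (1 + Real.log V) *
          Real.log (2 + Real.log V) := by ring
      _ ≤ _ := by
          apply mul_le_mul_of_nonneg_right _ h7.le
          apply mul_le_mul_of_nonneg_right _ (by linarith)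
          linarith

/-- The bound with `t = 1 / n`. -/
theorem quasi_core (i₀ : Fin k) (h : ℕ) (h1 : 1 ≤ h) (N : ℕ → ℕ) (hN1 : ∀ V, 1 ≤ N V)
    (H : ∀ Λ : Finset X, Λ.card = h + 1 → Patt F nt i₀ Λ N) {n V : ℕ} {A : Finset (Fin n → X)}
    (hn : 1 ≤ n) (hA : Free F nt A) (hD : Dec V A) :
    (A.card : ℝ) ≤ h ^ n * Real.exp ((Fintype.card X * 2 ^ Fintype.card X : ℕ) +
      ((2 ^ Fintype.card X * N V : ℕ) : ℝ) * Real.log (n + 1)) := by
  set K : ℕ := Fintype.card X * 2 ^ Fintype.card X with hK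
  have hnR : (1 : ℝ) ≤ n := by exact_mod_cast hn
  have hhR : (1 : ℝ) ≤ h := by exact_mod_cast h1
  have hb := bound (F := F) (nt := nt) i₀ h N hN1 H hA hD (t := 1 / n) (by positivity)
    (by rw [div_le_one (by positivity)]; exact hnR)
  rw [one_div_one_div, ← hK] at hb
  refine hb.trans ?_
  have h2 : ((h : ℝ) + K * (1 / n)) ^ n ≤ h ^ n * Real.exp K := by
    have h3 : (h : ℝ) + K * (1 / n) ≤ h * Real.exp (K / n) := by
      have h4 := Real.add_one_le_exp ((K : ℝ) / n)
      have h5 : (0 : ℝ) ≤ K / n := by positivity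
      calc (h : ℝ) + K * (1 / n) = h + 1 * (K / n) := by ring
        _ ≤ h + h * (K / n) := by
            apply add_le_add le_rfl
            exact mul_le_mul_of_nonneg_right hhR h5
        _ = h * (K / n + 1) := by ring
        _ ≤ h * Real.exp (K / n) := mul_le_mul_of_nonneg_left h4 (by linarith)
    calc ((h : ℝ) + K * (1 / n)) ^ n ≤ (h * Real.exp (K / n)) ^ n :=
          pow_le_pow_left₀ (by positivity) h3 n
      _ = h ^ n * Real.exp K := by
          rw [mul_pow, ← Real.exp_nat_mul]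
          congr 2
          field_simp
  have h6 : (n : ℝ) ^ (2 ^ Fintype.card X * N V) ≤
      Real.exp (((2 ^ Fintype.card X * N V : ℕ) : ℝ) * Real.log (n + 1)) := by
    have h7 : (n : ℝ) ≤ Real.exp (Real.log (n + 1)) := by
      rw [Real.exp_log (by linarith)]
      linarith
    calc (n : ℝ) ^ (2 ^ Fintype.card X * N V) ≤
        (Real.exp (Real.log (n + 1))) ^ (2 ^ Fintype.card X * N V) :=
          pow_le_pow_left₀ (by positivity) h7 _
      _ = _ := by rw [← Real.exp_nat_mul]
  calc ((h : ℝ) + K * (1 / n)) ^ n * (n : ℝ) ^ (2 ^ Fintype.card X * N V) ≤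
      (h ^ n * Real.exp K) *
      Real.exp (((2 ^ Fintype.card X * N V : ℕ) : ℝ) * Real.log (n + 1)) :=
        mul_le_mul h2 h6 (by positivity) (by positivity)
    _ = _ := by rw [mul_assoc, ← Real.exp_add]

/-- The bound with `t` fixed. -/
theorem small (i₀ : Fin k) (h : ℕ) (N : ℕ → ℕ) (hN1 : ∀ V, 1 ≤ N V)
    (H : ∀ Λ : Finset X, Λ.card = h + 1 → Patt F nt i₀ Λ N) {ε : ℝ} (hε : 0 < ε) :
    ∃ β : ℝ, 0 < β ∧ ∀ (n V : ℕ) (A : Finset (Fin n → X)), Free F nt A → Dec V A →
      (N V : ℝ) ≤ β * n → (A.card : ℝ) ≤ (h + ε) ^ n := by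
  set K : ℕ := Fintype.card X * 2 ^ Fintype.card X with hK
  -- the parameter `t`
  set t : ℝ := min 1 (ε / (2 * (K + 1))) with ht
  have ht0 : 0 < t := lt_min one_pos (by positivity)
  have ht1 : t ≤ 1 := min_le_left _ _
  have hKt : K * t ≤ ε / 2 := by
    have h1 : (0 : ℝ) ≤ K := Nat.cast_nonneg K
    calc K * t ≤ K * (ε / (2 * (K + 1))) := mul_le_mul_of_nonneg_left (min_le_right _ _) h1
      _ ≤ (K + 1) * (ε / (2 * (K + 1))) := by
          apply mul_le_mul_of_nonneg_right (by linarith) (by positivity)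
      _ = ε / 2 := by field_simp
  set η : ℝ := Real.log ((h + ε) / (h + ε / 2)) with hη
  have hh0 : (0 : ℝ) ≤ h := Nat.cast_nonneg h
  have hη0 : 0 < η := by
    apply Real.log_pos
    rw [lt_div_iff₀ (by positivity)]
    linarith
  have hti0 : 0 ≤ Real.log (1 / t) := by
    apply Real.log_nonneg
    rw [le_div_iff₀ ht0]
    linarith
  have hB0 : 0 < (2 : ℝ) ^ Fintype.card X * (Real.log (1 / t) + 1) := by positivity
  refine ⟨η / ((2 : ℝ) ^ Fintype.card X * (Real.log (1 / t) + 1)), by positivity, ?_⟩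
  intro n V A hA hD hNV
  have hb := bound (F := F) (nt := nt) i₀ h N hN1 H hA hD ht0 ht1
  rw [← hK] at hb
  refine hb.trans ?_
  have h4 : ((2 ^ Fintype.card X * N V : ℕ) : ℝ) * Real.log (1 / t) ≤ η * n := by
    push_cast
    calc (2 : ℝ) ^ Fintype.card X * (N V : ℝ) * Real.log (1 / t) ≤
        (2 : ℝ) ^ Fintype.card X * (η / ((2 : ℝ) ^ Fintype.card X * (Real.log (1 / t) + 1)) * n) *
          (Real.log (1 / t) + 1) := by
          apply mul_le_mul _ (by linarith) hti0 (by positivity)
          exact mul_le_mul_of_nonneg_left hNV (by positivity)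
      _ = η * n := by field_simp
  have h5 : (1 / t) ^ (2 ^ Fintype.card X * N V) ≤ Real.exp (η * n) := by
    have h6 : 1 / t = Real.exp (Real.log (1 / t)) := (Real.exp_log (by positivity)).symm
    rw [h6, ← Real.exp_nat_mul]
    exact Real.exp_le_exp.2 h4
  have h6 : Real.exp (η * n) = ((h + ε) / (h + ε / 2)) ^ n := by
    rw [mul_comm, Real.exp_nat_mul, hη, Real.exp_log (by positivity)]
  calc ((h : ℝ) + K * t) ^ n * (1 / t) ^ (2 ^ Fintype.card X * N V) ≤
      (h + ε / 2) ^ n * ((h + ε) / (h + ε / 2)) ^ n := by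
        rw [← h6]
        apply mul_le_mul _ h5 (by positivity) (by positivity)
        exact pow_le_pow_left₀ (by positivity) (by linarith) n
    _ = (h + ε) ^ n := by
        rw [← mul_pow, mul_div_cancel₀]
        positivity

/-- **Quasipolynomial form.** -/
theorem quasi (i₀ : Fin k) (τ : X → Q) (hτ : ∀ i v, F i (τ v) = v) (h : ℕ) (h1 : 1 ≤ h)
    (hmax : ∀ S : Finset X, ¬ Balanced F nt S → S.card ≤ h) :
    ∃ C : ℝ, 0 < C ∧ ∀ (n V : ℕ) (A : Finset (Fin n → X)), 1 ≤ n → Free F nt A → Dec V A →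
      (A.card : ℝ) ≤ h ^ n *
        Real.exp (C * (1 + Real.log V) * Real.log (2 + Real.log V) * Real.log (n + 1)) := by
  obtain ⟨K₀, hK₀, H⟩ := exists_threshold (F := F) (nt := nt) i₀ τ hτ h hmax
  obtain ⟨C, hC, hCV⟩ := kjl_le (2 ^ Fintype.card X * K₀) (Fintype.card X)
  set K : ℕ := Fintype.card X * 2 ^ Fintype.card X with hK
  refine ⟨C + 4 * K, by positivity, ?_⟩
  intro n V A hn hA hD
  obtain ⟨V', hV', hVV', hlog⟩ := exists_pos V
  rw [hlog]
  have hb := quasi_core (F := F) (nt := nt) i₀ h h1 _ (fun V => Nat.mul_pos (Nat.mul_pos hK₀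
    (one_le_jay _ _)) (one_le_ell _ _)) H hn hA (hD.mono hVV')
  refine hb.trans ?_
  apply mul_le_mul_of_nonneg_left _ (by positivity)
  apply Real.exp_le_exp.2
  have hnR : (1 : ℝ) ≤ n := by exact_mod_cast hn
  have hL0 : 0 ≤ Real.log V' := Real.log_natCast_nonneg V'
  have hln : Real.log 2 ≤ Real.log ((n : ℝ) + 1) := Real.log_le_log (by norm_num) (by linarith)
  have hlv : Real.log 2 ≤ Real.log (2 + Real.log V') := Real.log_le_log (by norm_num) (by linarith)
  have hl2 := half_lt_log_two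
  have h8 : (K : ℝ) ≤ 4 * K * (1 + Real.log V') * Real.log (2 + Real.log V') *
      Real.log (n + 1) := by
    have h9 : (1 : ℝ) / 4 ≤ Real.log (2 + Real.log V') * Real.log (n + 1) := by
      nlinarith
    have h10 : (1 : ℝ) / 4 ≤ (1 + Real.log V') * (Real.log (2 + Real.log V') *
        Real.log (n + 1)) := by nlinarith
    have hK0 : (0 : ℝ) ≤ K := Nat.cast_nonneg K
    calc (K : ℝ) = 4 * K * (1 / 4) := by ring
      _ ≤ 4 * K * ((1 + Real.log V') * (Real.log (2 + Real.log V') * Real.log (n + 1))) :=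
          mul_le_mul_of_nonneg_left h10 (by positivity)
      _ = _ := by ring
  have h9 : ((2 ^ Fintype.card X * (K₀ * jay (Fintype.card X) V' * ell (Fintype.card X) V') : ℕ) :
      ℝ) ≤ C * (1 + Real.log V') * Real.log (2 + Real.log V') := by
    refine le_trans (le_of_eq ?_) (hCV V' hV')
    push_cast
    ring
  calc (K : ℝ) + ((2 ^ Fintype.card X * (K₀ * jay (Fintype.card X) V' *
      ell (Fintype.card X) V') : ℕ) : ℝ) * Real.log (n + 1) ≤
      4 * K * (1 + Real.log V') * Real.log (2 + Real.log V') * Real.log (n + 1) +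
        C * (1 + Real.log V') * Real.log (2 + Real.log V') * Real.log (n + 1) := by
        apply add_le_add h8
        exact mul_le_mul_of_nonneg_right h9 (by linarith)
    _ = _ := by ring

/-- **Exponential form.** -/
theorem expo (i₀ : Fin k) (τ : X → Q) (hτ : ∀ i v, F i (τ v) = v) (h : ℕ)
    (hmax : ∀ S : Finset X, ¬ Balanced F nt S → S.card ≤ h) {ε : ℝ} (hε : 0 < ε) :
    ∃ δ : ℝ, 0 < δ ∧ ∃ n₀ : ℕ, ∀ (n V : ℕ) (A : Finset (Fin n → X)), n₀ ≤ n → Free F nt A →
      Dec V A → (V : ℝ) ≤ Real.exp (δ * n / Real.log n) → (A.card : ℝ) ≤ (h + ε) ^ n := by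
  obtain ⟨K₀, hK₀, H⟩ := exists_threshold (F := F) (nt := nt) i₀ τ hτ h hmax
  obtain ⟨C, hC, hCV⟩ := kjl_le K₀ (Fintype.card X)
  obtain ⟨β, hβ, hsm⟩ := small (F := F) (nt := nt) i₀ h _ (fun V => Nat.mul_pos (Nat.mul_pos hK₀
    (one_le_jay _ _)) (one_le_ell _ _)) H hε
  set δ : ℝ := min 1 (β / (2 * C)) with hδ
  have hδ0 : 0 < δ := lt_min one_pos (by positivity)
  have hδ1 : δ ≤ 1 := min_le_left _ _
  have hBδ : C * δ ≤ β / 2 := by
    calc C * δ ≤ C * (β / (2 * C)) := mul_le_mul_of_nonneg_left (min_le_right _ _) hC.le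
      _ = β / 2 := by field_simp
  have hlim : Tendsto (fun n : ℕ => Real.log n / n) atTop (𝓝 0) := by
    have h1 := Real.tendsto_pow_log_div_mul_add_atTop 1 0 1 one_ne_zero
    simp only [pow_one, one_mul, add_zero] at h1
    exact h1.comp tendsto_natCast_atTop_atTop
  have hev := (hlim.eventually (gt_mem_nhds (show (0 : ℝ) < β / (2 * C) by positivity))).and
    (eventually_ge_atTop 8)
  obtain ⟨n₀, hn₀⟩ := eventually_atTop.1 hev
  refine ⟨δ, hδ0, n₀, ?_⟩
  intro n V A hn hA hD hV
  obtain ⟨hlog, hn8⟩ := hn₀ n hn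
  have hnR : (8 : ℝ) ≤ n := by exact_mod_cast hn8
  have hn0 : (0 : ℝ) < n := by linarith
  have hlogn : 0 < Real.log n := Real.log_pos (by linarith)
  rw [div_lt_iff₀ hn0] at hlog
  obtain ⟨V', hV', hVV', hL⟩ : ∃ V' : ℕ, V' ≠ 0 ∧ V ≤ V' ∧
      Real.log V' ≤ δ * n / Real.log n := by
    rcases Nat.eq_zero_or_pos V with h0 | h0
    · refine ⟨1, one_ne_zero, by omega, ?_⟩
      simp only [Nat.cast_one, Real.log_one]
      positivity
    · refine ⟨V, by omega, le_rfl, ?_⟩
      have h2 := Real.log_le_log (by exact_mod_cast h0) hV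
      rwa [Real.log_exp] at h2
  have hL0 : 0 ≤ Real.log V' := Real.log_natCast_nonneg V'
  refine hsm n V' A hA (hD.mono hVV') ?_
  have h3 : Real.log (2 + Real.log V') ≤ Real.log n := by
    apply Real.log_le_log (by linarith)
    have h4 : δ * n / Real.log n ≤ n / 2 := by
      have h5 : (2 : ℝ) ≤ Real.log n := by
        rw [Real.le_log_iff_exp_le hn0]
        have h6 := Real.exp_one_lt_d9
        have h7 : Real.exp 2 = Real.exp 1 * Real.exp 1 := by
          rw [← Real.exp_add]
          norm_num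
        rw [h7]
        have h8 := Real.exp_pos 1
        nlinarith
      rw [div_le_iff₀ hlogn]
      nlinarith
    linarith
  have h5 : (1 + Real.log V') * Real.log (2 + Real.log V') ≤ Real.log n + δ * n := by
    calc (1 + Real.log V') * Real.log (2 + Real.log V') ≤
        (1 + δ * n / Real.log n) * Real.log n := by
          apply mul_le_mul (by linarith) h3 (Real.log_nonneg (by linarith)) (by positivity)
      _ = _ := by field_simp
  calc ((K₀ * jay (Fintype.card X) V' * ell (Fintype.card X) V' : ℕ) : ℝ) ≤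
      C * (1 + Real.log V') * Real.log (2 + Real.log V') := hCV V' hV'
    _ = C * ((1 + Real.log V') * Real.log (2 + Real.log V')) := by ring
    _ ≤ C * (Real.log n + δ * n) := mul_le_mul_of_nonneg_left h5 hC.le
    _ = C * Real.log n + C * δ * n := by ring
    _ ≤ C * (β / (2 * C) * n) + β / 2 * n := by
        apply add_le_add
        · exact mul_le_mul_of_nonneg_left hlog.le hC.le
        · exact mul_le_mul_of_nonneg_right hBδ hn0.le
    _ = β * n := by field_simp; ring

/-- Sets which are invariant under all permutations of the letters are decided by the numbers of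
occurrences of the letters. -/
theorem dec_of_symm {n : ℕ} {A : Finset (Fin n → X)} (hA : Symm A) :
    Dec ((n + 1) ^ Fintype.card X) A := by
  classical
  set f : Fin n → X → (X → ℤ) := fun _ b => Pi.single b 1 with hf
  have hΦ : ∀ (x : Fin n → X) (b : X), (∑ c, f c (x c)) b =
      ((univ.filter fun c => x c = b).card : ℤ) := by
    intro x b
    rw [Finset.sum_apply, card_filter]
    push_cast
    apply sum_congr rfl
    intro c _
    simp only [hf, Pi.single_apply]
    by_cases h : x c = b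
    · rw [if_pos h, if_pos h.symm]
    · rw [if_neg h, if_neg (fun h' => h h'.symm)]
  refine ⟨X → ℤ, inferInstance, f, {g | ∃ x ∈ A, ∑ c, f c (x c) = g}, ?_, ?_⟩
  · set R : Finset (X → ℤ) := Fintype.piFinset fun _ => (range (n + 1)).image (fun m : ℕ => (m : ℤ))
      with hR
    have h1 : (Set.range fun x : Fin n → X => ∑ c, f c (x c)) ⊆ (R : Set (X → ℤ)) := by
      rintro _ ⟨x, rfl⟩
      rw [mem_coe, hR, Fintype.mem_piFinset]
      intro b
      rw [mem_image]
      refine ⟨(univ.filter fun c => x c = b).card, ?_, (hΦ x b).symm⟩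
      rw [mem_range]
      have := card_le_univ (univ.filter fun c => x c = b)
      rw [Fintype.card_fin] at this
      omega
    calc _ ≤ (R : Set (X → ℤ)).ncard := Set.ncard_le_ncard h1 (finite_toSet R)
      _ = R.card := Set.ncard_coe_finset R
      _ ≤ _ := by
        rw [hR, Fintype.card_piFinset, prod_const, card_univ]
        apply Nat.pow_le_pow_left
        exact card_image_le.trans (by simp)
  · intro x
    constructor
    · intro hx
      exact ⟨x, hx, rfl⟩
    · rintro ⟨y, hy, hxy⟩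
      have h1 : ∀ b, Fintype.card {i // x i = b} = Fintype.card {i // y i = b} := by
        intro b
        rw [Fintype.card_subtype, Fintype.card_subtype]
        have h2 := congrFun hxy b
        rw [hΦ, hΦ] at h2
        exact_mod_cast h2.symm
      obtain ⟨σ, hσ⟩ := Pool.Agent.H287R3.RA.AP.exists_perm x y h1
      have h2 := hA σ y hy
      have h3 : x = fun i => y (σ i) := funext hσ
      rw [h3]
      exact h2

end Pool.Agent.N389.AS
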