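import Mathlib

/-!
# Sets of words which shatter no large box

If `B` is a set of words of length `n` and no set `I` of `N` coordinates is shattered in the sense
that the projection of `B` on `I` contains a product of `N` sets of `h + 1` letters, then
`|B| ≤ (h + c t) ^ n t ^ (- N)` for `0 < t ≤ 1`.
-/

set_option autoImplicit false
set_option linter.unusedSectionVars false

namespace Pool.Agent.N389.AS

open Finset

variable {X : Type} [Fintype X] [DecidableEq X]

/-- the projection of `B` on some set of `N` coordinates contains a product of sets of `h + 1`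
letters -/
def Shat (h N : ℕ) {n : ℕ} (B : Finset (Fin n → X)) : Prop :=
  ∃ I : Finset (Fin n), I.card = N ∧ ∃ S : Fin n → Finset X, (∀ i ∈ I, (S i).card = h + 1) ∧
    ∀ y : Fin n → X, (∀ i ∈ I, y i ∈ S i) → ∃ x ∈ B, ∀ i ∈ I, x i = y i

/-- the letters `a` such that `a u ∈ B` -/
def fib {n : ℕ} (B : Finset (Fin (n + 1) → X)) (u : Fin n → X) : Finset X :=
  univ.filter fun a => (Fin.cons a u : Fin (n + 1) → X) ∈ B

lemma cons_tail' {n : ℕ} (x : Fin (n + 1) → X) : (Fin.cons (x 0) (Fin.tail x) : Fin (n + 1) → X) = x :=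
  Fin.cons_self_tail x

lemma mem_fib {n : ℕ} {B : Finset (Fin (n + 1) → X)} {u : Fin n → X} {a : X} :
    a ∈ fib B u ↔ (Fin.cons a u : Fin (n + 1) → X) ∈ B := by
  simp [fib]

/-- the words all of whose extensions by letters of `S` are in `B` -/
def ext (S : Finset X) {n : ℕ} (B : Finset (Fin (n + 1) → X)) : Finset (Fin n → X) :=
  univ.filter fun u => S ⊆ fib B u

lemma mem_ext {S : Finset X} {n : ℕ} {B : Finset (Fin (n + 1) → X)} {u : Fin n → X} :
    u ∈ ext S B ↔ S ⊆ fib B u := by
  simp [ext]

lemma shat_tail {h N n : ℕ} {B : Finset (Fin (n + 1) → X)} (hB : ¬ Shat h N B) :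
    ¬ Shat h N (B.image Fin.tail) := by
  rintro ⟨I, hI, S, hS, hy⟩
  apply hB
  refine ⟨I.map (Fin.succEmb n), by simpa using hI, Fin.cons ∅ S, ?_, ?_⟩
  · intro i hi
    obtain ⟨j, hj, rfl⟩ := mem_map.1 hi
    simpa using hS j hj
  · intro y hy'
    obtain ⟨x, hx, hxy⟩ := hy (Fin.tail y) (fun i hi => by
      have := hy' i.succ (mem_map.2 ⟨i, hi, rfl⟩)
      simpa [Fin.tail] using this)
    obtain ⟨z, hz, rfl⟩ := mem_image.1 hx
    refine ⟨z, hz, ?_⟩
    intro i hi
    obtain ⟨j, hj, rfl⟩ := mem_map.1 hi
    exact hxy j hj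

lemma shat_ext {h N n : ℕ} {B : Finset (Fin (n + 1) → X)} (hB : ¬ Shat h (N + 1) B)
    {T : Finset X} (hT : T.card = h + 1) : ¬ Shat h N (ext T B) := by
  rintro ⟨I, hI, S, hS, hy⟩
  apply hB
  refine ⟨insert 0 (I.map (Fin.succEmb n)), ?_, Fin.cons T S, ?_, ?_⟩
  · rw [card_insert_of_notMem, card_map, hI]
    intro h0
    obtain ⟨j, _, hj⟩ := mem_map.1 h0
    exact Fin.succ_ne_zero j hj
  · intro i hi
    rcases mem_insert.1 hi with rfl | hi
    · simpa using hT
    · obtain ⟨j, hj, rfl⟩ := mem_map.1 hi
      simpa using hS j hj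
  · intro y hy'
    obtain ⟨x, hx, hxy⟩ := hy (Fin.tail y) (fun i hi => by
      have := hy' i.succ (mem_insert_of_mem (mem_map.2 ⟨i, hi, rfl⟩))
      simpa [Fin.tail] using this)
    rw [mem_ext] at hx
    have h0 : y 0 ∈ T := by
      have := hy' 0 (mem_insert_self _ _)
      simpa using this
    refine ⟨Fin.cons (y 0) x, mem_fib.1 (hx h0), ?_⟩
    intro i hi
    rcases mem_insert.1 hi with rfl | hi
    · simp
    · obtain ⟨j, hj, rfl⟩ := mem_map.1 hi
      have := hxy j hj
      simpa [Fin.tail] using this

lemma card_rec (h n : ℕ) (B : Finset (Fin (n + 1) → X)) :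
    B.card ≤ h * (B.image Fin.tail).card +
      Fintype.card X * ∑ T ∈ powersetCard (h + 1) (univ : Finset X), (ext T B).card := by
  classical
  have h1 : B.card = ∑ u ∈ B.image Fin.tail, (fib B u).card := by
    rw [card_eq_sum_card_image (Fin.tail : (Fin (n + 1) → X) → Fin n → X) B]
    apply sum_congr rfl
    intro u _
    symm
    apply card_bij (fun a _ => (Fin.cons a u : Fin (n + 1) → X))
    · intro a ha
      rw [mem_filter]
      exact ⟨mem_fib.1 ha, by simp⟩
    · intro a _ b _ hab
      have := congrFun hab 0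
      simpa using this
    · intro x hx
      obtain ⟨hxB, hxu⟩ := mem_filter.1 hx
      refine ⟨x 0, ?_, ?_⟩
      · rw [mem_fib, ← hxu, cons_tail']
        exact hxB
      · rw [← hxu, cons_tail']
  have h2 : ∀ u : Fin n → X, (fib B u).card ≤ h + Fintype.card X *
      ((powersetCard (h + 1) (univ : Finset X)).filter (fun T => u ∈ ext T B)).card := by
    intro u
    by_cases hc : (fib B u).card ≤ h
    · exact hc.trans (Nat.le_add_right _ _)
    · obtain ⟨T, hT, hTc⟩ := exists_subset_card_eq (show h + 1 ≤ (fib B u).card by omega)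
      have h3 : 0 < ((powersetCard (h + 1) (univ : Finset X)).filter
          (fun T => u ∈ ext T B)).card := by
        apply card_pos.2
        exact ⟨T, mem_filter.2 ⟨mem_powersetCard.2 ⟨subset_univ _, hTc⟩, mem_ext.2 hT⟩⟩
      have h4 : (fib B u).card ≤ Fintype.card X := card_le_univ _
      have h5 : Fintype.card X * 1 ≤ Fintype.card X *
          ((powersetCard (h + 1) (univ : Finset X)).filter (fun T => u ∈ ext T B)).card :=
        Nat.mul_le_mul_left _ h3
      omega
  calc B.card = ∑ u ∈ B.image Fin.tail, (fib B u).card := h1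
    _ ≤ ∑ u ∈ B.image Fin.tail, (h + Fintype.card X *
      ((powersetCard (h + 1) (univ : Finset X)).filter (fun T => u ∈ ext T B)).card) :=
        sum_le_sum fun u _ => h2 u
    _ = h * (B.image Fin.tail).card + Fintype.card X * ∑ u ∈ B.image Fin.tail,
      ((powersetCard (h + 1) (univ : Finset X)).filter (fun T => u ∈ ext T B)).card := by
        rw [sum_add_distrib, sum_const, smul_eq_mul, ← mul_sum, mul_comm]
    _ ≤ _ := by
        apply Nat.add_le_add_left
        apply Nat.mul_le_mul_left
        have h6 : ∑ u ∈ B.image Fin.tail,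
            ((powersetCard (h + 1) (univ : Finset X)).filter (fun T => u ∈ ext T B)).card =
            ∑ T ∈ powersetCard (h + 1) (univ : Finset X),
              ((B.image Fin.tail).filter (fun u => u ∈ ext T B)).card := by
          simp only [card_filter]
          rw [sum_comm]
        rw [h6]
        apply sum_le_sum
        intro T _
        apply card_le_card
        intro u hu
        exact (mem_filter.1 hu).2

/-- **Theorem.** A set of words which shatters no box of `N` sets of `h + 1` letters is small. -/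
theorem card_of_not_shat (h : ℕ) (t : ℝ) (ht : 0 < t) (ht1 : t ≤ 1) :
    ∀ (n N : ℕ) (B : Finset (Fin n → X)), ¬ Shat h N B →
      (B.card : ℝ) ≤ (h + (Fintype.card X * 2 ^ Fintype.card X : ℕ) * t) ^ n * (1 / t) ^ N := by
  set c : ℕ := Fintype.card X * 2 ^ Fintype.card X with hc
  have hti : 1 ≤ 1 / t := by
    rw [le_div_iff₀ ht]
    linarith
  have hbase : (0 : ℝ) ≤ h + c * t := by positivity
  have hzero : ∀ (n : ℕ) (B : Finset (Fin n → X)), ¬ Shat h 0 B → B = ∅ := by
    intro n B hB
    by_contra hne
    obtain ⟨x, hx⟩ := nonempty_iff_ne_empty.2 hne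
    apply hB
    exact ⟨∅, rfl, fun _ => ∅, by simp, fun y _ => ⟨x, hx, by simp⟩⟩
  intro n
  induction n with
  | zero =>
    intro N B hB
    rw [pow_zero, one_mul]
    have h1 : B.card ≤ 1 := by
      have := card_le_univ B
      simpa using this
    calc (B.card : ℝ) ≤ 1 := by exact_mod_cast h1
      _ ≤ (1 / t) ^ N := one_le_pow₀ hti
  | succ n ih =>
    intro N B hB
    rcases N with _ | N
    · rw [hzero _ B hB]
      simp only [card_empty, Nat.cast_zero]
      positivity
    · have h1 := ih (N + 1) (B.image Fin.tail) (shat_tail hB)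
      have h2 : ∀ T ∈ powersetCard (h + 1) (univ : Finset X), ((ext T B).card : ℝ) ≤
          (h + c * t) ^ n * (1 / t) ^ N := fun T hT =>
        ih N (ext T B) (shat_ext hB (mem_powersetCard.1 hT).2)
      have h3 : (B.card : ℝ) ≤ h * ((B.image Fin.tail).card : ℝ) +
          Fintype.card X * ∑ T ∈ powersetCard (h + 1) (univ : Finset X), ((ext T B).card : ℝ) := by
        exact_mod_cast card_rec h n B
      have h4 : ∑ T ∈ powersetCard (h + 1) (univ : Finset X), ((ext T B).card : ℝ) ≤
          (2 ^ Fintype.card X : ℕ) * ((h + c * t) ^ n * (1 / t) ^ N) := by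
        calc _ ≤ ∑ T ∈ powersetCard (h + 1) (univ : Finset X),
            ((h + c * t) ^ n * (1 / t) ^ N) := sum_le_sum h2
          _ = ((powersetCard (h + 1) (univ : Finset X)).card : ℝ) *
            ((h + c * t) ^ n * (1 / t) ^ N) := by rw [sum_const, nsmul_eq_mul]
          _ ≤ _ := by
            apply mul_le_mul_of_nonneg_right _ (by positivity)
            have h5 : (powersetCard (h + 1) (univ : Finset X)).card ≤ 2 ^ Fintype.card X := by
              have := card_le_univ (powersetCard (h + 1) (univ : Finset X))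
              simpa using this
            exact_mod_cast h5
      calc (B.card : ℝ) ≤ h * ((h + c * t) ^ n * (1 / t) ^ (N + 1)) +
          Fintype.card X * ((2 ^ Fintype.card X : ℕ) * ((h + c * t) ^ n * (1 / t) ^ N)) := by
            refine h3.trans (add_le_add ?_ ?_)
            · exact mul_le_mul_of_nonneg_left h1 (by positivity)
            · exact mul_le_mul_of_nonneg_left h4 (by positivity)
        _ = (h + c * t) ^ (n + 1) * (1 / t) ^ (N + 1) := by
            have h6 : t * (1 / t) = 1 := mul_one_div_cancel ht.ne'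
            have h7 : (Fintype.card X : ℝ) * ((2 ^ Fintype.card X : ℕ) * ((h + c * t) ^ n * (1 / t) ^ N)) =
                c * ((h + c * t) ^ n * (1 / t) ^ N) := by
              rw [hc]
              push_cast
              ring
            rw [h7, pow_succ, pow_succ]
            linear_combination (-(c : ℝ) * ((h + c * t) ^ n * (1 / t) ^ N)) * h6

end Pool.Agent.N389.AS
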