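import Pool.Agent.N389.AS.Petal
import Pool.Agent.N389.AS.Shat
import Pool.Agent.TH197.Sym.Gen

/-!
# Sets of words without a pattern which are decided by an additive statistic

The setting is that of `Pool.Agent.TH197.Sym`: `X` is the alphabet, `Q` the set of patterns, the
terms of the pattern `q` are `F i q`, and `τ v` is the constant pattern.
-/

set_option autoImplicit false
set_option linter.unusedSectionVars false

namespace Pool.Agent.N389.AS

open Finset
open Pool.Agent.TH197.Sym (Balanced Free)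

variable {X Q : Type} [Fintype X] [DecidableEq X] [Fintype Q] [DecidableEq Q] {k : ℕ}
variable {F : Fin k → Q → X} {nt : Q → Prop}

/-- the marginals of a balanced weight agree on every function -/
lemma sum_weight {G : Type} [AddCommGroup G] (w : Q → ℕ) (i : Fin k) (φ : X → G) :
    ∑ s : (Σ q : Q, Fin (w q)), φ (F i s.1) =
      ∑ x : X, (∑ q : Q, if F i q = x then w q else 0) • φ x := by
  classical
  rw [← Finset.univ_sigma_univ, Finset.sum_sigma]
  have h1 : ∀ q : Q, ∑ _s : Fin (w q), φ (F i q) = w q • φ (F i q) := by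
    intro q
    simp
  rw [sum_congr rfl fun q _ => h1 q]
  have h2 : ∀ x : X, (∑ q : Q, if F i q = x then w q else 0) • φ x =
      ∑ q : Q, if F i q = x then w q • φ x else 0 := by
    intro x
    rw [sum_smul]
    apply sum_congr rfl
    intro q _
    split_ifs <;> simp
  rw [sum_congr rfl fun x _ => h2 x, sum_comm]
  apply sum_congr rfl
  intro q _
  rw [sum_ite_eq]
  simp

/-- the number of values of the differences -/
lemma card_colors {n : ℕ} {G : Type} [AddCommGroup G] [DecidableEq G] (f : Fin n → X → G) (V : ℕ)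
    (hV : (univ.image fun x : Fin n → X => ∑ c, f c (x c)).card ≤ V) (a₀ : X) :
    ∃ R : Finset (X → G), R.card ≤ V ^ Fintype.card X ∧
      ∀ T : Finset (Fin n), (fun b => ∑ c ∈ T, (f c b - f c a₀)) ∈ R := by
  classical
  refine ⟨Fintype.piFinset fun _ : X => (univ.image fun x : Fin n → X => ∑ c, f c (x c)).image
    (fun g => g - ∑ c, f c a₀), ?_, ?_⟩
  · rw [Fintype.card_piFinset, prod_const, card_univ]
    exact Nat.pow_le_pow_left (card_image_le.trans hV) _
  · intro T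
    rw [Fintype.mem_piFinset]
    intro b
    rw [mem_image]
    refine ⟨∑ c, f c (if c ∈ T then b else a₀), ?_, ?_⟩
    · rw [mem_image]
      exact ⟨fun c => if c ∈ T then b else a₀, mem_univ _, rfl⟩
    · rw [← sum_sub_distrib]
      symm
      have h1 : ∀ c ∈ (univ : Finset (Fin n)), c ∉ T →
          f c (if c ∈ T then b else a₀) - f c a₀ = 0 := by
        intro c _ hc
        rw [if_neg hc, sub_self]
      rw [← sum_subset (subset_univ T) h1]
      apply sum_congr rfl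
      intro c hc
      rw [if_pos hc]

/-- the conclusion of the existence theorems: there is a word `y` over `Λ` on `I` such that every
word which agrees with `y` on `I` is the first term of a pattern all of whose terms have the same
value of the statistic -/
def Good (F : Fin k → Q → X) (nt : Q → Prop) (i₀ : Fin k) (Λ : Finset X) {n : ℕ} {G : Type}
    [AddCommGroup G] (f : Fin n → X → G) (I : Finset (Fin n)) : Prop :=
  ∃ y : Fin n → X, (∀ c ∈ I, y c ∈ Λ) ∧ ∀ x : Fin n → X, (∀ c ∈ I, x c = y c) →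
    ∃ q : Fin n → Q, (∀ c, F i₀ (q c) = x c) ∧ (∃ c, nt (q c)) ∧
      ∀ i, ∑ c, f c (F i (q c)) = ∑ c, f c (x c)

/-- From petals to patterns. -/
theorem good_of_petals {n : ℕ} {G : Type} [AddCommGroup G] (i₀ : Fin k) (τ : X → Q)
    (hτ : ∀ i v, F i (τ v) = v) (Λ : Finset X) (f : Fin n → X → G) (I : Finset (Fin n)) {W : ℕ}
    (hW1 : 1 ≤ W) (e : Fin W → Q) (hnt : ∀ s, nt (e s)) (hmem : ∀ s i, F i (e s) ∈ Λ)
    (hbal : ∀ i, ∀ φ : X → G, ∑ s, φ (F i (e s)) = ∑ s, φ (F i₀ (e s))) (a₀ : X) (ha₀ : a₀ ∈ Λ)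
    (Y : Finset (Fin n)) (S : Fin W → Finset (Fin n)) (hS : ∀ s, S s ⊆ I ∧ Y ⊂ S s)
    (hSΨ : ∀ s s', (fun b => ∑ c ∈ S s, (f c b - f c a₀)) =
      fun b => ∑ c ∈ S s', (f c b - f c a₀))
    (hd : ∀ s s', s ≠ s' → Disjoint (S s \ Y) (S s' \ Y)) : Good F nt i₀ Λ f I := by
  classical
  set Ψ : Finset (Fin n) → X → G := fun T b => ∑ c ∈ T, (f c b - f c a₀) with hΨ
  set P : Fin W → Finset (Fin n) := fun s => S s \ Y with hP
  have hPΨ : ∀ s s', Ψ (P s) = Ψ (P s') := by
    have h1 : ∀ s, ∀ b, Ψ (P s) b + Ψ Y b = Ψ (S s) b := by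
      intro s b
      simp only [hΨ, hP]
      exact sum_sdiff (hS s).2.1
    intro s s'
    funext b
    have h2 := h1 s b
    have h3 := h1 s' b
    have h4 : Ψ (S s) = Ψ (S s') := hSΨ s s'
    rw [h4, ← h3] at h2
    exact add_right_cancel h2
  have hPne : ∀ s, (P s).Nonempty := fun s => by
    rw [hP]
    exact sdiff_nonempty.2 (hS s).2.2
  have huniq : ∀ s s' c, c ∈ P s → c ∈ P s' → s = s' := by
    intro s s' c h1 h2
    by_contra hne
    exact disjoint_left.1 (hd s s' hne) h1 h2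
  -- the pattern chosen at `c`
  let pat : Fin n → (X → Q) → X → Q := fun c t v =>
    if h : ∃ s, c ∈ P s then e h.choose else t v
  have hpat : ∀ s c t v, c ∈ P s → pat c t v = e s := by
    intro s c t v hc
    have h : ∃ s, c ∈ P s := ⟨s, hc⟩
    simp only [pat, dif_pos h]
    rw [huniq _ s c h.choose_spec hc]
  have hpat' : ∀ c t v, (¬ ∃ s, c ∈ P s) → pat c t v = t v := by
    intro c t v h
    simp only [pat, dif_neg h]
  refine ⟨fun c => F i₀ (pat c τ a₀), ?_, ?_⟩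
  · intro c _
    by_cases h : ∃ s, c ∈ P s
    · obtain ⟨s, hs⟩ := h
      simp only
      rw [hpat s c _ _ hs]
      exact hmem s i₀
    · simp only
      rw [hpat' c _ _ h, hτ]
      exact ha₀
  · intro x hx
    refine ⟨fun c => pat c τ (x c), ?_, ?_, ?_⟩
    · intro c
      by_cases h : ∃ s, c ∈ P s
      · obtain ⟨s, hs⟩ := h
        have hcI : c ∈ I := (hS s).1 (sdiff_subset hs)
        rw [hx c hcI]
        simp only
        rw [hpat s c _ _ hs, hpat s c _ _ hs]
      · simp only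
        rw [hpat' c _ _ h, hτ]
    · let s₀ : Fin W := ⟨0, hW1⟩
      obtain ⟨c, hc⟩ := hPne s₀
      refine ⟨c, ?_⟩
      simp only
      rw [hpat s₀ c _ _ hc]
      exact hnt s₀
    · intro i
      rw [← sub_eq_zero, ← sum_sub_distrib]
      have h0 : ∀ c ∈ (univ : Finset (Fin n)), c ∉ (univ : Finset (Fin W)).biUnion P →
          f c (F i (pat c τ (x c))) - f c (x c) = 0 := by
        intro c _ hc
        have h : ¬ ∃ s, c ∈ P s := by
          rintro ⟨s, hs⟩
          exact hc (mem_biUnion.2 ⟨s, mem_univ _, hs⟩)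
        rw [hpat' c _ _ h, hτ, sub_self]
      rw [← sum_subset (subset_univ _) h0, sum_biUnion (fun s _ s' _ hss => hd s s' hss)]
      have h1 : ∀ s ∈ (univ : Finset (Fin W)),
          ∑ c ∈ P s, (f c (F i (pat c τ (x c))) - f c (x c)) =
          Ψ (P s) (F i (e s)) - Ψ (P s) (F i₀ (e s)) := by
        intro s _
        simp only [hΨ]
        rw [← sum_sub_distrib]
        apply sum_congr rfl
        intro c hc
        have hcI : c ∈ I := (hS s).1 (sdiff_subset hc)
        have hxc := hx c hcI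
        simp only at hxc
        rw [hpat s c _ _ hc] at hxc ⊢
        rw [hxc]
        abel
      rw [sum_congr rfl h1, sum_sub_distrib, sub_eq_zero]
      let s₀ : Fin W := ⟨0, hW1⟩
      have h2 : ∀ j : Fin k, ∑ s : Fin W, Ψ (P s) (F j (e s)) =
          ∑ s : Fin W, Ψ (P s₀) (F j (e s)) := by
        intro j
        apply sum_congr rfl
        intro s _
        rw [hPΨ s s₀]
      rw [h2 i, h2 i₀, hbal i]

/-- the threshold `N V` for the number of coordinates is good for the set `Λ` of letters -/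
def Patt (F : Fin k → Q → X) (nt : Q → Prop) (i₀ : Fin k) (Λ : Finset X) (N : ℕ → ℕ) : Prop :=
  ∀ (n : ℕ) (G : Type) [AddCommGroup G] [DecidableEq G] (f : Fin n → X → G) (V : ℕ)
    (I : Finset (Fin n)), (univ.image fun x : Fin n → X => ∑ c, f c (x c)).card ≤ V →
    N V ≤ I.card → Good F nt i₀ Λ f I

lemma Patt.mono {i₀ : Fin k} {Λ : Finset X} {N N' : ℕ → ℕ} (h : Patt F nt i₀ Λ N)
    (hN : ∀ V, N V ≤ N' V) : Patt F nt i₀ Λ N' :=
  fun n G _ _ f V I hV hI => h n G f V I hV ((hN V).trans hI)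

/-- the parameter `l` -/
def ell (g V : ℕ) : ℕ := g * (Nat.log 2 V + 1) + 1

/-- the parameter `J` -/
def jay (g V : ℕ) : ℕ := Nat.log 2 (ell g V) + 1

lemma pow_le_ell (g V : ℕ) : V ^ g ≤ 2 ^ ell g V := by
  have h1 : V ≤ 2 ^ (Nat.log 2 V + 1) := (Nat.lt_pow_succ_log_self (by norm_num) V).le
  calc V ^ g ≤ (2 ^ (Nat.log 2 V + 1)) ^ g := Nat.pow_le_pow_left h1 g
    _ = 2 ^ (g * (Nat.log 2 V + 1)) := by rw [← pow_mul, mul_comm]
    _ ≤ 2 ^ ell g V := Nat.pow_le_pow_right (by norm_num) (by unfold ell; omega)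

lemma ell_lt (g V : ℕ) : ell g V < 2 ^ jay g V := Nat.lt_pow_succ_log_self (by norm_num) _

lemma one_le_ell (g V : ℕ) : 1 ≤ ell g V := by unfold ell; omega

lemma one_le_jay (g V : ℕ) : 1 ≤ jay g V := by unfold jay; omega

/-- **Existence of patterns** over a set of letters which carries a balanced weight. -/
theorem patt_balanced (i₀ : Fin k) (τ : X → Q) (hτ : ∀ i v, F i (τ v) = v) (Λ : Finset X)
    (hΛ : Balanced F nt Λ) : ∃ W : ℕ, Patt F nt i₀ Λ fun V =>
      (2 * (64 * (W * (W * jay (Fintype.card X) V))) + 1) * ell (Fintype.card X) V := by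
  classical
  obtain ⟨w, ⟨q₀, hq₀⟩, hsup, hbal⟩ := hΛ
  refine ⟨Fintype.card (Σ q : Q, Fin (w q)), ?_⟩
  intro n G _ _ f V I hV hI
  set W := Fintype.card (Σ q : Q, Fin (w q)) with hW
  have hW1 : 1 ≤ W := Fintype.card_pos_iff.2 ⟨⟨q₀, ⟨0, Nat.pos_of_ne_zero hq₀⟩⟩⟩
  obtain ⟨e⟩ : Nonempty (Fin W ≃ (Σ q : Q, Fin (w q))) :=
    ⟨(Fintype.equivFinOfCardEq hW.symm).symm⟩
  have hw0 : ∀ s : Fin W, w (e s).1 ≠ 0 := fun s h0 => by
    have := (e s).2.2
    omega
  set a₀ : X := F i₀ q₀ with ha₀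
  obtain ⟨R, hR, hRm⟩ := card_colors f V hV a₀
  obtain ⟨Y, S, hS, hSΨ, hd⟩ := petals_const W (ell (Fintype.card X) V) (jay (Fintype.card X) V)
    (V ^ Fintype.card X) hW1 (one_le_jay _ _) (ell_lt _ _) I
    (fun T => fun b => ∑ c ∈ T, (f c b - f c a₀)) R hRm hR
    (choose_big _ _ _ _ (one_le_ell _ _) (pow_le_ell _ _) hI)
  refine good_of_petals i₀ τ hτ Λ f I hW1 (fun s => (e s).1) (fun s => (hsup _ (hw0 s)).1)
    (fun s i => (hsup _ (hw0 s)).2 i) ?_ a₀ ((hsup q₀ hq₀).2 i₀) Y S hS hSΨ hd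
  intro i φ
  have h2 : ∀ j : Fin k, ∑ s : Fin W, φ (F j (e s).1) =
      ∑ x : X, (∑ q : Q, if F j q = x then w q else 0) • φ x := by
    intro j
    rw [← sum_weight w j φ, ← Equiv.sum_comp e]
  rw [h2 i, h2 i₀]
  apply sum_congr rfl
  intro v _
  rw [hbal i i₀ v]

/-- `A` is decided by the additive statistic `x ↦ ∑ c, f c (x c)` with at most `V` values, with
values in some abelian group. -/
def Dec (V : ℕ) {n : ℕ} (A : Finset (Fin n → X)) : Prop :=
  ∃ (G : Type) (_ : AddCommGroup G) (f : Fin n → X → G) (D : Set G),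
    (Set.range fun x : Fin n → X => ∑ c, f c (x c)).ncard ≤ V ∧
    ∀ x, x ∈ A ↔ ∑ c, f c (x c) ∈ D

/-- **Main bound.** -/
theorem bound (i₀ : Fin k) (h : ℕ) (N : ℕ → ℕ) (hN1 : ∀ V, 1 ≤ N V)
    (H : ∀ Λ : Finset X, Λ.card = h + 1 → Patt F nt i₀ Λ N) {n V : ℕ} {A : Finset (Fin n → X)}
    (hA : Free F nt A) (hD : Dec V A) {t : ℝ} (ht : 0 < t) (ht1 : t ≤ 1) :
    (A.card : ℝ) ≤ (h + (Fintype.card X * 2 ^ Fintype.card X : ℕ) * t) ^ n *
      (1 / t) ^ (2 ^ Fintype.card X * N V) := by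
  classical
  obtain ⟨G, iG, f, D, hV, hAD⟩ := hD
  have hV' : (univ.image fun x : Fin n → X => ∑ c, f c (x c)).card ≤ V := by
    refine le_trans (le_of_eq ?_) hV
    rw [← Set.ncard_coe_finset]
    congr 1
    ext g
    simp
  apply card_of_not_shat h t ht ht1 n _ A
  rintro ⟨I, hI, S, hS, hy⟩
  -- pigeonhole
  obtain ⟨Λ, hΛ⟩ : ∃ Λ : Finset X, N V ≤ (I.filter fun c => S c = Λ).card := by
    by_contra hcon
    push Not at hcon
    have h1 : I.card = ∑ Λ : Finset X, (I.filter fun c => S c = Λ).card :=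
      card_eq_sum_card_fiberwise fun c _ => by simp
    have h2 : ∑ Λ : Finset X, (I.filter fun c => S c = Λ).card < ∑ _Λ : Finset X, N V :=
      sum_lt_sum_of_nonempty univ_nonempty fun Λ _ => hcon Λ
    rw [← h1, hI, sum_const, card_univ, Fintype.card_finset, smul_eq_mul] at h2
    exact lt_irrefl _ h2
  obtain ⟨c₁, hc₁⟩ := card_pos.1 (lt_of_lt_of_le (hN1 V) hΛ)
  have hΛc : Λ.card = h + 1 := by
    obtain ⟨h1, h2⟩ := mem_filter.1 hc₁
    rw [← h2]
    exact hS c₁ h1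
  obtain ⟨y, hyΛ, hyx⟩ := H Λ hΛc n G f V (I.filter fun c => S c = Λ) hV' hΛ
  have hSne : ∀ c ∈ I, (S c).Nonempty := fun c hc => by
    rw [← card_pos, hS c hc]
    omega
  let y' : Fin n → X := fun c => if h : c ∈ I ∧ S c ≠ Λ then (hSne c h.1).choose else y c
  obtain ⟨x, hx, hxy⟩ := hy y' (fun c hc => by
    by_cases h : S c ≠ Λ
    · have h' : c ∈ I ∧ S c ≠ Λ := ⟨hc, h⟩
      simp only [y', dif_pos h']
      exact (hSne c h'.1).choose_spec
    · have h' : ¬ (c ∈ I ∧ S c ≠ Λ) := fun hh => h hh.2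
      simp only [y', dif_neg h']
      push Not at h
      rw [h]
      exact hyΛ c (mem_filter.2 ⟨hc, h⟩))
  obtain ⟨q, hq0, ⟨c, hc⟩, hq⟩ := hyx x (fun c hc => by
    obtain ⟨h1, h2⟩ := mem_filter.1 hc
    rw [hxy c h1]
    have h' : ¬ (c ∈ I ∧ S c ≠ Λ) := fun hh => hh.2 h2
    simp only [y', dif_neg h'])
  refine hA q (fun i => ?_) c hc
  rw [hAD, hq i, ← hAD]
  exact hx

/-- the threshold for balanced weights -/
theorem exists_threshold (i₀ : Fin k) (τ : X → Q) (hτ : ∀ i v, F i (τ v) = v) (h : ℕ)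
    (hmax : ∀ S : Finset X, ¬ Balanced F nt S → S.card ≤ h) :
    ∃ K : ℕ, 1 ≤ K ∧ ∀ Λ : Finset X, Λ.card = h + 1 → Patt F nt i₀ Λ fun V =>
      K * jay (Fintype.card X) V * ell (Fintype.card X) V := by
  classical
  have hex : ∀ Λ : Finset X, ∃ W : ℕ, Λ.card = h + 1 → Patt F nt i₀ Λ fun V =>
      (2 * (64 * (W * (W * jay (Fintype.card X) V))) + 1) * ell (Fintype.card X) V := by
    intro Λ
    by_cases hΛ : Balanced F nt Λ
    · obtain ⟨W, hW⟩ := patt_balanced (F := F) (nt := nt) i₀ τ hτ Λ hΛ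
      exact ⟨W, fun _ => hW⟩
    · exact ⟨1, fun hc => absurd (hmax Λ hΛ) (by omega)⟩
  choose W hW using hex
  obtain ⟨W₀, hW₀⟩ : ∃ W₀, ∀ Λ, W Λ ≤ W₀ :=
    ⟨∑ Λ, W Λ, fun Λ => single_le_sum (fun _ _ => Nat.zero_le _) (mem_univ Λ)⟩
  refine ⟨2 * (64 * (W₀ * W₀)) + 1, by omega, fun Λ hΛ => (hW Λ hΛ).mono fun V => ?_⟩
  apply Nat.mul_le_mul_right
  have h3 : W Λ * W Λ ≤ W₀ * W₀ := Nat.mul_le_mul (hW₀ Λ) (hW₀ Λ)
  have h4 : W Λ * (W Λ * jay (Fintype.card X) V) ≤ W₀ * W₀ * jay (Fintype.card X) V := by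
    rw [← mul_assoc]
    exact Nat.mul_le_mul_right _ h3
  have h5 := one_le_jay (Fintype.card X) V
  nlinarith

end Pool.Agent.N389.AS
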