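import Pool.Agent.H560R2.Spread2

/-!
# Sunflowers in large families, and equal petals for a function on sets

The improved sunflower lemma in the form: a family of more than `(64 W² J) ^ l` sets of size `l < 2 ^ J`
contains `W` sets with a common core and disjoint nonempty petals.
-/

set_option autoImplicit false
set_option linter.unusedSectionVars false

namespace Pool.Agent.N389.AS

open Finset
open Pool.Agent.H560R2 (WB mem_WB robust_sunflower)

variable {ι : Type} [Fintype ι] [DecidableEq ι]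

/-- the samples with a zero entry -/
def Zr (B J Q : ℕ) [NeZero Q] : Finset (Fin B → Fin J → Fin Q) :=
  univ.filter fun x => ∃ b j, x b j = 0

lemma mem_Zr {B J Q : ℕ} [NeZero Q] {x : Fin B → Fin J → Fin Q} :
    x ∈ Zr B J Q ↔ ∃ b j, x b j = 0 := by
  simp [Zr]

lemma card_entry {B J Q : ℕ} [NeZero Q] (b : Fin B) (j : Fin J) :
    Q * (univ.filter fun x : Fin B → Fin J → Fin Q => x b j = 0).card ≤
      Fintype.card (Fin B → Fin J → Fin Q) := by
  classical
  have h1 : Q * (univ.filter fun x : Fin B → Fin J → Fin Q => x b j = 0).card =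
      ((univ : Finset (Fin Q)) ×ˢ
        (univ.filter fun x : Fin B → Fin J → Fin Q => x b j = 0)).card := by
    rw [card_product, card_univ, Fintype.card_fin]
  rw [h1, ← card_univ]
  apply card_le_card_of_injOn
    (fun p => Function.update p.2 b (Function.update (p.2 b) j p.1))
  · intro p _
    simp
  · rintro ⟨q, x⟩ hx ⟨q', x'⟩ hx' h
    simp only [coe_product, coe_univ, coe_filter, mem_univ, true_and, Set.mem_prod, Set.mem_univ,
      Set.mem_setOf_eq] at hx hx' h
    have hq : q = q' := by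
      have := congrFun (congrFun h b) j
      simpa using this
    subst hq
    have hxx : x = x' := by
      funext b' j'
      by_cases hb : b' = b
      · subst hb
        by_cases hj : j' = j
        · subst hj
          rw [hx, hx']
        · have := congrFun (congrFun h b') j'
          simpa [Function.update_of_ne hj] using this
      · have := congrFun (congrFun h b') j'
        simpa [Function.update_of_ne hb] using this
    rw [hxx]

lemma card_Zr (W J : ℕ) (hW : 1 ≤ W) (hJ : 1 ≤ J) [NeZero (W * (W * J))] :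
    W * (Zr W J (W * (W * J))).card ≤ Fintype.card (Fin W → Fin J → Fin (W * (W * J))) := by
  classical
  have h1 : (Zr W J (W * (W * J))).card ≤ ∑ b : Fin W, ∑ j : Fin J,
      (univ.filter fun x : Fin W → Fin J → Fin (W * (W * J)) => x b j = 0).card := by
    have h2 : Zr W J (W * (W * J)) ⊆ (univ : Finset (Fin W)).biUnion fun b =>
        (univ : Finset (Fin J)).biUnion fun j =>
          univ.filter fun x : Fin W → Fin J → Fin (W * (W * J)) => x b j = 0 := by
      intro x hx
      obtain ⟨b, j, h⟩ := mem_Zr.1 hx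
      rw [mem_biUnion]
      refine ⟨b, mem_univ _, ?_⟩
      rw [mem_biUnion]
      exact ⟨j, mem_univ _, mem_filter.2 ⟨mem_univ _, h⟩⟩
    refine (card_le_card h2).trans (card_biUnion_le.trans ?_)
    exact sum_le_sum fun b _ => card_biUnion_le
  have h3 : (W * (W * J)) * (Zr W J (W * (W * J))).card ≤
      (W * J) * Fintype.card (Fin W → Fin J → Fin (W * (W * J))) := by
    calc (W * (W * J)) * (Zr W J (W * (W * J))).card ≤ (W * (W * J)) * ∑ b : Fin W, ∑ j : Fin J,
        (univ.filter fun x : Fin W → Fin J → Fin (W * (W * J)) => x b j = 0).card :=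
          Nat.mul_le_mul_left _ h1
      _ = ∑ b : Fin W, ∑ j : Fin J, (W * (W * J)) *
        (univ.filter fun x : Fin W → Fin J → Fin (W * (W * J)) => x b j = 0).card := by
          rw [mul_sum]
          apply sum_congr rfl
          intro b _
          rw [mul_sum]
      _ ≤ ∑ _b : Fin W, ∑ _j : Fin J, Fintype.card (Fin W → Fin J → Fin (W * (W * J))) :=
          sum_le_sum fun b _ => sum_le_sum fun j _ => card_entry b j
      _ = _ := by
          rw [sum_const, sum_const, card_univ, card_univ, Fintype.card_fin, Fintype.card_fin]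
          simp only [smul_eq_mul]
          ring
  have hpos : 0 < W * J := Nat.mul_pos hW hJ
  have h4 : (W * J) * (W * (Zr W J (W * (W * J))).card) ≤
      (W * J) * Fintype.card (Fin W → Fin J → Fin (W * (W * J))) := by
    calc _ = (W * (W * J)) * (Zr W J (W * (W * J))).card := by ring
      _ ≤ _ := h3
  exact Nat.le_of_mul_le_mul_left h4 hpos

/-- `W` permutations of a finite set such that the preimages of `Z` are disjoint -/
lemma exists_perms {Y : Type} [Fintype Y] [DecidableEq Y] (W : ℕ) (Z : Finset Y)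
    (hZ : W * Z.card ≤ Fintype.card Y) :
    ∃ π : Fin W → Equiv.Perm Y, ∀ s s' : Fin W, s ≠ s' → ∀ x, π s x ∈ Z → π s' x ∉ Z := by
  classical
  have hemb : Nonempty (Fin W × {x // x ∈ Z} ↪ Y) := by
    rw [Function.Embedding.nonempty_iff_card_le, Fintype.card_prod, Fintype.card_fin,
      Fintype.card_coe]
    exact hZ
  obtain ⟨e⟩ := hemb
  have key : ∀ s : Fin W, ∃ π : Equiv.Perm Y, ∀ x, π x ∈ Z ↔ ∃ z, e (s, z) = x := by
    intro s
    let g : {x // x ∈ Z} → {x : Y // ∃ z, e (s, z) = x} := fun z => ⟨e (s, z), z, rfl⟩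
    have hg : Function.Bijective g := by
      constructor
      · intro z z' h
        have := congrArg Subtype.val h
        have h2 := e.injective this
        exact (Prod.mk.inj h2).2
      · rintro ⟨x, z, rfl⟩
        exact ⟨z, rfl⟩
    let E : {x : Y // ∃ z, e (s, z) = x} ≃ {x // x ∈ Z} := (Equiv.ofBijective g hg).symm
    refine ⟨E.extendSubtype, fun x => ⟨?_, ?_⟩⟩
    · intro h
      by_contra hx
      exact Equiv.extendSubtype_not_mem E x hx h
    · intro h
      exact Equiv.extendSubtype_mem E x h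
  choose π hπ using key
  refine ⟨π, ?_⟩
  intro s s' hss x h1 h2
  obtain ⟨z, hz⟩ := (hπ s x).1 h1
  obtain ⟨z', hz'⟩ := (hπ s' x).1 h2
  rw [← hz'] at hz
  exact hss (Prod.mk.inj (e.injective hz)).1

/-- **Improved sunflower lemma.** -/
theorem petals (W l J : ℕ) (hW : 1 ≤ W) (hJ1 : 1 ≤ J) (hJ : l < 2 ^ J) (𝒮 : Finset (Finset ι))
    (hS : ∀ S ∈ 𝒮, S.card = l) (hbig : (64 * (W * (W * J))) ^ l < 𝒮.card) :
    ∃ (Y : Finset ι) (S : Fin W → Finset ι), (∀ s, S s ∈ 𝒮 ∧ Y ⊂ S s) ∧
      ∀ s s', s ≠ s' → Disjoint (S s \ Y) (S s' \ Y) := by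
  classical
  haveI : NeZero (W * (W * J)) := ⟨by positivity⟩
  set Q := W * (W * J) with hQ
  obtain ⟨Y, ⟨S₀, hS₀, hYS₀⟩, hbad⟩ := robust_sunflower (Q := Q) W J (64 * Q) l le_rfl hJ 𝒮 hS hbig
  have hYl : Y.card < l := by
    rw [← hS S₀ hS₀]
    exact card_lt_card hYS₀
  obtain ⟨π, hπ⟩ := exists_perms W (Zr W J Q) (card_Zr W J hW hJ1)
  let T : Fin W → (Fin W → Fin J → ι → Fin Q) → (Fin W → Fin J → ι → Fin Q) :=
    fun s ω b j v => π s (fun b' j' => ω b' j' v) b j
  have hT : ∀ s, Function.Injective (T s) := by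
    intro s ω ω' h
    funext b j v
    have h1 : π s (fun b' j' => ω b' j' v) = π s (fun b' j' => ω' b' j' v) := by
      funext b' j'
      exact congrFun (congrFun (congrFun h b') j') v
    exact congrFun (congrFun ((π s).injective h1) b) j
  set Bad := (univ : Finset (Fin W → Fin J → ι → Fin Q)).filter
    (fun ω => ∀ S ∈ 𝒮, Y ⊆ S → ¬ S \ Y ⊆ WB ω) with hBad
  have hcardT : ∀ s, (univ.filter fun ω => T s ω ∈ Bad).card ≤ Bad.card := by
    intro s
    apply card_le_card_of_injOn (T s)
    · intro ω hω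
      exact (mem_filter.1 (mem_coe.1 hω)).2
    · exact (hT s).injOn
  have hex : ∃ ω, ∀ s, T s ω ∉ Bad := by
    by_contra hcon
    push Not at hcon
    have h1 : (univ : Finset (Fin W → Fin J → ι → Fin Q)) ⊆
        (univ : Finset (Fin W)).biUnion fun s => univ.filter fun ω => T s ω ∈ Bad := by
      intro ω _
      obtain ⟨s, hs⟩ := hcon ω
      rw [mem_biUnion]
      exact ⟨s, mem_univ _, mem_filter.2 ⟨mem_univ _, hs⟩⟩
    have h2 := (card_le_card h1).trans card_biUnion_le
    have h3 : ∑ s : Fin W, (univ.filter fun ω => T s ω ∈ Bad).card ≤ W * Bad.card := by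
      calc _ ≤ ∑ _s : Fin W, Bad.card := sum_le_sum fun s _ => hcardT s
        _ = _ := by simp
    have h4 : (univ : Finset (Fin W → Fin J → ι → Fin Q)).card =
        ((Q ^ Fintype.card ι) ^ J) ^ W := by
      rw [card_univ, Fintype.card_fun, Fintype.card_fun, Fintype.card_fun, Fintype.card_fin,
        Fintype.card_fin, Fintype.card_fin]
    rw [h4] at h2
    have hpos : 0 < ((Q ^ Fintype.card ι) ^ J) ^ W := by positivity
    have h5 : W < 4 ^ W := Nat.lt_pow_self (by norm_num)
    have h6 : 0 < Bad.card := by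
      by_contra h0
      have : Bad.card = 0 := by omega
      rw [this] at h3
      omega
    have h7 : W * Bad.card < Bad.card * 4 ^ W := by
      rw [mul_comm]
      exact Nat.mul_lt_mul_of_pos_left h5 h6
    omega
  obtain ⟨ω, hω⟩ := hex
  have hpick : ∀ s, ∃ S ∈ 𝒮, Y ⊆ S ∧ S \ Y ⊆ WB (T s ω) := by
    intro s
    have h1 := hω s
    rw [hBad, mem_filter] at h1
    push Not at h1
    exact h1 (mem_univ _)
  choose S hS1 hS2 hS3 using hpick
  refine ⟨Y, S, fun s => ⟨hS1 s, hS2 s, fun h => ?_⟩, ?_⟩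
  · have := card_le_card h
    rw [hS _ (hS1 s)] at this
    omega
  · intro s s' hss
    rw [disjoint_left]
    intro v hv hv'
    have h1 := (mem_WB _ v).1 (hS3 s hv)
    have h2 := (mem_WB _ v).1 (hS3 s' hv')
    exact hπ s s' hss (fun b' j' => ω b' j' v) (mem_Zr.2 h1) (mem_Zr.2 h2)

/-- Sunflowers on which a function with at most `K` values is constant. -/
theorem petals_const {κ : Type} [DecidableEq κ] (W l J K : ℕ) (hW : 1 ≤ W) (hJ1 : 1 ≤ J)
    (hJ : l < 2 ^ J) (I : Finset ι) (Ψ : Finset ι → κ) (R : Finset κ) (hR : ∀ T, Ψ T ∈ R)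
    (hRK : R.card ≤ K) (hnum : K * (64 * (W * (W * J))) ^ l < I.card.choose l) :
    ∃ (Y : Finset ι) (S : Fin W → Finset ι), (∀ s, S s ⊆ I ∧ Y ⊂ S s) ∧
      (∀ s s', Ψ (S s) = Ψ (S s')) ∧ ∀ s s', s ≠ s' → Disjoint (S s \ Y) (S s' \ Y) := by
  classical
  have h1 : R.card * (64 * (W * (W * J))) ^ l < (powersetCard l I).card := by
    rw [card_powersetCard]
    exact lt_of_le_of_lt (Nat.mul_le_mul_right _ hRK) hnum
  obtain ⟨y, _, hy⟩ := exists_lt_card_fiber_of_mul_lt_card_of_maps_to
    (f := Ψ) (s := powersetCard l I) (t := R) (fun T _ => hR T) h1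
  obtain ⟨Y, S, hS, hd⟩ := petals W l J hW hJ1 hJ
    ((powersetCard l I).filter fun T => Ψ T = y)
    (fun T hT => (mem_powersetCard.1 (mem_filter.1 hT).1).2) hy
  refine ⟨Y, S, fun s => ⟨(mem_powersetCard.1 (mem_filter.1 (hS s).1).1).1, (hS s).2⟩,
    fun s s' => ?_, hd⟩
  rw [(mem_filter.1 (hS s).1).2, (mem_filter.1 (hS s').1).2]

/-- the numerical condition -/
theorem choose_big (N l r K : ℕ) (hl : 1 ≤ l) (hK : K ≤ 2 ^ l) (hN : (2 * r + 1) * l ≤ N) :
    K * r ^ l < N.choose l := by
  have h1 : 2 * r * l < N + 1 - l := by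
    have : (2 * r + 1) * l = 2 * r * l + l := by ring
    omega
  have h2 : (N + 1 - l) ^ l ≤ N.descFactorial l := Nat.pow_sub_le_descFactorial N l
  rw [Nat.descFactorial_eq_factorial_mul_choose] at h2
  have h3 : (2 * r * l) ^ l < (N + 1 - l) ^ l := Nat.pow_lt_pow_left h1 (by omega)
  have h4 : l.factorial ≤ l ^ l := Nat.factorial_le_pow l
  have h5 : l.factorial * (K * r ^ l) ≤ (2 * r * l) ^ l := by
    calc l.factorial * (K * r ^ l) ≤ l ^ l * (2 ^ l * r ^ l) :=
          Nat.mul_le_mul h4 (Nat.mul_le_mul_right _ hK)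
      _ = _ := by rw [mul_pow, mul_pow]; ring
  exact Nat.lt_of_mul_lt_mul_left (lt_of_le_of_lt h5 (lt_of_lt_of_le h3 h2))

end Pool.Agent.N389.AS
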