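import Pool.Agent.Helper999.Sq3.Slice
import Pool.Agent.N389.AS.Asym

/-!
# Three petals

With three petals the number of coordinates is linear in `log V`. This is the method of Naslund and
Sawin: the slice rank of `∏ i, (1 + x i + y i + z i)` over `Z / 3`.
-/

set_option autoImplicit false
set_option linter.unusedSectionVars false

namespace Pool.Agent.N389.AS

open Finset
open Pool.Agent.TH197.Sym (Balanced Free)

section slice

variable {ι : Type} [Fintype ι] [DecidableEq ι]

/-- the factors -/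
def fac (e : Fin 3) (v : ZMod 3) : ZMod 3 := if e = 0 then 1 + v else v

lemma fac_zero (v : ZMod 3) : fac 0 v = 1 + v := rfl

lemma fac_ne {e : Fin 3} (he : e ≠ 0) (v : ZMod 3) : fac e v = v := by
  unfold fac
  rw [if_neg he]

lemma card_small' (D : ℕ) : ((univ : Finset (Finset ι)).filter fun S => S.card ≤ D).card ≤
    ∑ j ∈ range (D + 1), (Fintype.card ι).choose j := by
  classical
  have h1 : (univ : Finset (Finset ι)).filter (fun S => S.card ≤ D) ⊆
      (range (D + 1)).biUnion (fun j => (univ : Finset ι).powersetCard j) := by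
    intro S hS
    rw [mem_filter] at hS
    exact mem_biUnion.2 ⟨S.card, mem_range.2 (Nat.lt_succ_of_le hS.2),
      mem_powersetCard.2 ⟨subset_univ _, rfl⟩⟩
  refine (card_le_card h1).trans (card_biUnion_le.trans (sum_le_sum fun j _ => ?_))
  rw [card_powersetCard, card_univ]

lemma expand (T : Finset ι) (D : ℕ) (hT : T.card ≤ D) (e : Fin 3) :
    ∃ c : Finset ι → ZMod 3, ∀ x : ι → ZMod 3, ∏ i ∈ T, fac e (x i) =
      ∑ S ∈ (univ : Finset (Finset ι)).filter (fun S => S.card ≤ D), c S * ∏ j ∈ S, x j := by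
  classical
  by_cases he : e = 0
  · subst he
    refine ⟨fun S => if S ⊆ T then 1 else 0, fun x => ?_⟩
    simp only [fac_zero]
    rw [prod_one_add]
    have h1 : T.powerset = ((univ : Finset (Finset ι)).filter (fun S => S.card ≤ D)).filter
        (fun S => S ⊆ T) := by
      ext S
      simp only [mem_powerset, mem_filter, mem_univ, true_and]
      exact ⟨fun h => ⟨(card_le_card h).trans hT, h⟩, fun h => h.2⟩
    rw [h1, sum_filter]
    apply sum_congr rfl
    intro S _
    split_ifs <;> simp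
  · refine ⟨fun S => if S = T then 1 else 0, fun x => ?_⟩
    simp only [fac_ne he]
    rw [sum_eq_single T]
    · simp
    · intro S _ hS
      rw [if_neg hS, zero_mul]
    · intro h
      exfalso
      apply h
      rw [mem_filter]
      exact ⟨mem_univ _, hT⟩

/-- The slice rank bound for sunflower-free families (Naslund and Sawin). -/
theorem slice3 {B : Type} [Fintype B] [DecidableEq B] (X : B → ι → ZMod 3)
    (h : ∀ x y z : B, (if x = y ∧ y = z then (1 : ZMod 3) else 0) =
      ∏ i, (1 + X x i + X y i + X z i)) :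
    Fintype.card B ≤ 3 * ∑ j ∈ range (Fintype.card ι / 3 + 1), (Fintype.card ι).choose j := by
  classical
  set D := Fintype.card ι / 3 with hD
  -- the small part of an assignment
  have hg : ∀ τ : ι → Fin 3, ∃ e : Fin 3, (univ.filter (fun i => τ i = e)).card ≤ D := by
    intro τ
    by_contra hno
    push Not at hno
    have h1 := card_eq_sum_card_fiberwise (f := τ) (s := (univ : Finset ι)) (t := univ)
      (fun _ _ => mem_coe.2 (mem_univ _))
    rw [card_univ, Fin.sum_univ_three] at h1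
    have := hno 0
    have := hno 1
    have := hno 2
    omega
  choose g hg using hg
  have hc : ∀ τ : ι → Fin 3, ∃ c : Finset ι → ZMod 3, ∀ x : ι → ZMod 3,
      ∏ i ∈ univ.filter (fun i => τ i = g τ), fac (g τ) (x i) =
      ∑ S ∈ (univ : Finset (Finset ι)).filter (fun S => S.card ≤ D), c S * ∏ j ∈ S, x j :=
    fun τ => expand _ D (hg τ) (g τ)
  choose c hc using hc
  let P : Fin 3 → (ι → Fin 3) → (ι → ZMod 3) → ZMod 3 := fun e τ x =>
    ∏ i ∈ univ.filter (fun i => τ i = e), fac e (x i)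
  have hexp : ∀ x y z : B, (if x = y ∧ y = z then (1 : ZMod 3) else 0) =
      ∑ τ : ι → Fin 3, P 0 τ (X x) * P 1 τ (X y) * P 2 τ (X z) := by
    intro x y z
    rw [h x y z]
    let Y : Fin 3 → ι → ZMod 3 := ![X x, X y, X z]
    have h1 : ∀ i : ι, (1 + X x i + X y i + X z i) =
        ∑ e ∈ (univ : Finset (Fin 3)), fac e (Y e i) := by
      intro i
      rw [Fin.sum_univ_three]
      simp [fac, Y]
    rw [prod_congr rfl (fun i _ => h1 i), prod_univ_sum, Fintype.piFinset_univ]
    refine sum_congr rfl fun τ _ => ?_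
    rw [← prod_fiberwise_of_maps_to (s := univ) (t := (univ : Finset (Fin 3)))
      (g := τ) (fun _ _ => mem_univ _), Fin.prod_univ_three]
    have hP : ∀ e : Fin 3, ∏ i ∈ univ.filter (fun i => τ i = e), fac (τ i) (Y (τ i) i) =
        P e τ (Y e) := by
      intro e
      refine prod_congr rfl fun i hi => ?_
      rw [(mem_filter.1 hi).2]
    rw [hP 0, hP 1, hP 2]
    rfl
  let 𝓘 : Finset (Finset ι) := (univ : Finset (Finset ι)).filter (fun S => S.card ≤ D)
  have hI : Fintype.card 𝓘 ≤ ∑ j ∈ range (D + 1), (Fintype.card ι).choose j := by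
    rw [Fintype.card_coe]; exact card_small' D
  have hPc : ∀ τ x, P (g τ) τ x = ∑ S ∈ 𝓘, c τ S * ∏ j ∈ S, x j := hc
  have hIsum : ∀ F : Finset ι → ZMod 3, ∑ S : 𝓘, F S.1 = ∑ S ∈ 𝓘, F S := fun F =>
    sum_coe_sort 𝓘 F
  have hfin := Pool.Agent.Helper999.Sq3.slice_rank_diag (F := ZMod 3) (A := B) (I := 𝓘) (J := 𝓘)
    (L := 𝓘)
    (fun S x => ∏ j ∈ S.1, X x j)
    (fun S y z => ∑ τ ∈ univ.filter (fun τ => g τ = 0), c τ S.1 * (P 1 τ (X y) * P 2 τ (X z)))
    (fun S y => ∏ j ∈ S.1, X y j)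
    (fun S x z => ∑ τ ∈ univ.filter (fun τ => g τ = 1), c τ S.1 * (P 0 τ (X x) * P 2 τ (X z)))
    (fun S z => ∏ j ∈ S.1, X z j)
    (fun S x y => ∑ τ ∈ univ.filter (fun τ => g τ = 2), c τ S.1 * (P 0 τ (X x) * P 1 τ (X y)))
    (by
      intro x y z
      rw [hexp x y z, ← sum_fiberwise_of_maps_to (s := univ)
        (t := (univ : Finset (Fin 3))) (g := g) (fun _ _ => mem_univ _),
        Fin.sum_univ_three]
      congr 1
      · congr 1
        · rw [hIsum (fun S => (∏ j ∈ S, X x j) * ∑ τ ∈ univ.filter (fun τ => g τ = 0),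
            c τ S * (P 1 τ (X y) * P 2 τ (X z)))]
          simp only [mul_sum]
          rw [sum_comm]
          refine sum_congr rfl fun τ hτ => ?_
          have h0 : g τ = 0 := (mem_filter.1 hτ).2
          have h2 := hPc τ (X x)
          rw [h0] at h2
          rw [h2, sum_mul, sum_mul]
          refine sum_congr rfl fun S _ => ?_
          ring
        · rw [hIsum (fun S => (∏ j ∈ S, X y j) * ∑ τ ∈ univ.filter (fun τ => g τ = 1),
            c τ S * (P 0 τ (X x) * P 2 τ (X z)))]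
          simp only [mul_sum]
          rw [sum_comm]
          refine sum_congr rfl fun τ hτ => ?_
          have h0 : g τ = 1 := (mem_filter.1 hτ).2
          have h2 := hPc τ (X y)
          rw [h0] at h2
          rw [h2, mul_sum, sum_mul]
          refine sum_congr rfl fun S _ => ?_
          ring
      · rw [hIsum (fun S => (∏ j ∈ S, X z j) * ∑ τ ∈ univ.filter (fun τ => g τ = 2),
            c τ S * (P 0 τ (X x) * P 1 τ (X y)))]
        simp only [mul_sum]
        rw [sum_comm]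
        refine sum_congr rfl fun τ hτ => ?_
        have h0 : g τ = 2 := (mem_filter.1 hτ).2
        have h2 := hPc τ (X z)
        rw [h0] at h2
        rw [h2, mul_sum]
        refine sum_congr rfl fun S _ => ?_
        ring)
  omega

end slice

/-- `∑_{j ≤ N / 3} C(N, j) ≤ 3 ^ N / 2 ^ (N - N / 3)` -/
lemma sum_choose_third (N : ℕ) :
    (∑ j ∈ range (N / 3 + 1), N.choose j) * 2 ^ (N - N / 3) ≤ 3 ^ N := by
  have h1 : (3 : ℕ) ^ N = ∑ j ∈ range (N + 1), 1 ^ j * 2 ^ (N - j) * N.choose j := by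
    have h0 := add_pow (1 : ℕ) 2 N
    norm_num at h0 ⊢
    exact h0
  rw [h1, sum_mul]
  calc ∑ j ∈ range (N / 3 + 1), N.choose j * 2 ^ (N - N / 3) ≤
      ∑ j ∈ range (N / 3 + 1), 1 ^ j * 2 ^ (N - j) * N.choose j := by
        apply sum_le_sum
        intro j hj
        rw [mem_range] at hj
        rw [one_pow, one_mul, mul_comm]
        apply Nat.mul_le_mul_right
        exact Nat.pow_le_pow_right (by norm_num) (by omega)
    _ ≤ _ := by
        apply sum_le_sum_of_subset
        intro j hj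
        rw [mem_range] at hj ⊢
        have := Nat.div_le_self N 3
        omega

lemma lin_lt_pow (a : ℕ) (ha : 10 ≤ a) : 15 * (4 * a + 4) < 2 ^ a := by
  induction a, ha using Nat.le_induction with
  | base => norm_num
  | succ a ha ih =>
    rw [pow_succ]
    omega

/-- the numerical condition -/
lemma three_big (N l : ℕ) (hl : 1 ≤ l) (hN : 200 * l ≤ N) :
    2 ^ l * (N + 1) * (3 * ∑ j ∈ range (N / 3 + 1), N.choose j) < 2 ^ N := by
  set m := N / 5 with hm
  set a := m / 4 with ha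
  have hml : 40 * l ≤ m := by omega
  have ha10 : 10 ≤ a := by omega
  have h3la : 3 * l ≤ a := by omega
  have h1 : 3 * (N + 1) ≤ 15 * (4 * a + 4) := by omega
  have h2 : 3 * (N + 1) < 2 ^ a := lt_of_le_of_lt h1 (lin_lt_pow a ha10)
  -- `8 ^ l (3 (N + 1)) ^ 3 < 2 ^ m`
  have h3 : (2 ^ l * (3 * (N + 1))) ^ 3 < 2 ^ m := by
    have h4 : (3 * (N + 1)) ^ 3 < (2 ^ a) ^ 3 := Nat.pow_lt_pow_left h2 (by norm_num)
    calc (2 ^ l * (3 * (N + 1))) ^ 3 = (2 ^ l) ^ 3 * (3 * (N + 1)) ^ 3 := by rw [mul_pow]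
      _ < (2 ^ l) ^ 3 * (2 ^ a) ^ 3 := Nat.mul_lt_mul_of_pos_left h4 (by positivity)
      _ = 2 ^ (3 * l + 3 * a) := by rw [← pow_mul, ← pow_mul, ← pow_add]; ring_nf
      _ ≤ 2 ^ m := Nat.pow_le_pow_right (by norm_num) (by omega)
  -- `2 ^ m 27 ^ N ≤ 32 ^ N`
  have h5 : 2 ^ m * 27 ^ N ≤ 32 ^ N := by
    have h6 : (2 : ℕ) * 27 ^ 5 ≤ 32 ^ 5 := by norm_num
    have h7 : 2 ^ m * 27 ^ (5 * m) ≤ 32 ^ (5 * m) := by
      calc 2 ^ m * 27 ^ (5 * m) = (2 * 27 ^ 5) ^ m := by rw [mul_pow, ← pow_mul]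
        _ ≤ (32 ^ 5) ^ m := Nat.pow_le_pow_left h6 m
        _ = 32 ^ (5 * m) := by rw [← pow_mul]
    obtain ⟨r, hr⟩ : ∃ r, N = 5 * m + r := ⟨N - 5 * m, by omega⟩
    rw [hr, pow_add, pow_add, ← mul_assoc]
    exact Nat.mul_le_mul h7 (Nat.pow_le_pow_left (by norm_num) r)
  have h6 := sum_choose_third N
  set S := ∑ j ∈ range (N / 3 + 1), N.choose j with hS
  set D := N / 3 with hD
  -- cube
  by_contra hcon
  push Not at hcon
  have h7 : 2 ^ N * 2 ^ (N - D) ≤ 2 ^ l * (3 * (N + 1)) * 3 ^ N := by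
    calc 2 ^ N * 2 ^ (N - D) ≤ 2 ^ l * (N + 1) * (3 * S) * 2 ^ (N - D) :=
          Nat.mul_le_mul_right _ hcon
      _ = 2 ^ l * (3 * (N + 1)) * (S * 2 ^ (N - D)) := by ring
      _ ≤ _ := Nat.mul_le_mul_left _ h6
  have h8 := Nat.pow_le_pow_left h7 3
  have h9 : 32 ^ N ≤ (2 ^ N * 2 ^ (N - D)) ^ 3 := by
    rw [← pow_add, ← pow_mul, show (32 : ℕ) = 2 ^ 5 by norm_num, ← pow_mul]
    exact Nat.pow_le_pow_right (by norm_num) (by omega)
  have h10 : (2 ^ l * (3 * (N + 1)) * 3 ^ N) ^ 3 = (2 ^ l * (3 * (N + 1))) ^ 3 * 27 ^ N := by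
    rw [mul_pow, ← pow_mul, mul_comm N 3, pow_mul]
    norm_num
  rw [h10] at h8
  have h11 : (2 ^ l * (3 * (N + 1))) ^ 3 * 27 ^ N < 2 ^ m * 27 ^ N :=
    Nat.mul_lt_mul_of_pos_right h3 (by positivity)
  omega

/-- Three petals on which a function with at most `2 ^ l` values is constant. -/
theorem petals_three {ι κ : Type} [Fintype ι] [DecidableEq ι] [DecidableEq κ] (l K : ℕ) (hl : 1 ≤ l)
    (I : Finset ι) (Ψ : Finset ι → κ) (R : Finset κ) (hR : ∀ T, Ψ T ∈ R) (hRK : R.card ≤ K)
    (hK : K ≤ 2 ^ l) (hI : 200 * l ≤ I.card) :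
    ∃ (Y : Finset ι) (S : Fin 3 → Finset ι), (∀ s, S s ⊆ I ∧ Y ⊂ S s) ∧
      (∀ s s', Ψ (S s) = Ψ (S s')) ∧ ∀ s s', s ≠ s' → Disjoint (S s \ Y) (S s' \ Y) := by
  classical
  set N := I.card with hN
  set M := 3 * ∑ j ∈ range (N / 3 + 1), N.choose j with hM
  have hnum : (R ×ˢ range (N + 1)).card * M < I.powerset.card := by
    rw [card_product, card_range, card_powerset]
    calc R.card * (N + 1) * M ≤ 2 ^ l * (N + 1) * M :=
          Nat.mul_le_mul_right _ (Nat.mul_le_mul_right _ (hRK.trans hK))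
      _ < 2 ^ N := three_big N l hl hI
  obtain ⟨⟨r, s⟩, _, hrs⟩ := exists_lt_card_fiber_of_mul_lt_card_of_maps_to
    (f := fun T : Finset ι => (Ψ T, T.card)) (s := I.powerset) (t := R ×ˢ range (N + 1))
    (fun T hT => by
      rw [mem_product, mem_range]
      exact ⟨hR T, Nat.lt_succ_of_le (card_le_card (mem_powerset.1 hT))⟩) hnum
  set 𝒯 := I.powerset.filter fun T => (Ψ T, T.card) = (r, s) with h𝒯
  have hmem : ∀ T ∈ 𝒯, T ⊆ I ∧ Ψ T = r ∧ T.card = s := by
    intro T hT
    obtain ⟨h1, h2⟩ := mem_filter.1 hT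
    exact ⟨mem_powerset.1 h1, (Prod.mk.inj h2).1, (Prod.mk.inj h2).2⟩
  by_contra hcon
  -- the tensor is diagonal
  have hdiag : ∀ x y z : {T // T ∈ 𝒯}, ¬ (x = y ∧ y = z) →
      ∃ i : {i // i ∈ I}, (1 : ZMod 3) + (if i.1 ∈ x.1 then 1 else 0) +
        (if i.1 ∈ y.1 then 1 else 0) + (if i.1 ∈ z.1 then 1 else 0) = 0 := by
    intro x y z hxyz
    by_contra hno
    push Not at hno
    obtain ⟨x, hx⟩ := x
    obtain ⟨y, hy⟩ := y
    obtain ⟨z, hz⟩ := z
    obtain ⟨hxI, hxr, hxs⟩ := hmem x hx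
    obtain ⟨hyI, hyr, hys⟩ := hmem y hy
    obtain ⟨hzI, hzr, hzs⟩ := hmem z hz
    simp only [Subtype.mk.injEq] at hxyz hno
    -- no element in exactly two of the sets
    have c1 : ∀ i, i ∈ x → i ∈ y → i ∈ z := by
      intro i h1 h2
      by_contra h3
      have := hno ⟨i, hxI h1⟩
      simp only [if_pos h1, if_pos h2, if_neg h3] at this
      exact this (by decide)
    have c2 : ∀ i, i ∈ x → i ∈ z → i ∈ y := by
      intro i h1 h2
      by_contra h3
      have := hno ⟨i, hxI h1⟩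
      simp only [if_pos h1, if_pos h2, if_neg h3] at this
      exact this (by decide)
    have c3 : ∀ i, i ∈ y → i ∈ z → i ∈ x := by
      intro i h1 h2
      by_contra h3
      have := hno ⟨i, hyI h1⟩
      simp only [if_pos h1, if_pos h2, if_neg h3] at this
      exact this (by decide)
    -- the sets are distinct
    have hxy : x ≠ y := by
      rintro rfl
      apply hxyz
      refine ⟨rfl, ?_⟩
      exact eq_of_subset_of_card_le (fun i hi => c1 i hi hi) (by rw [hxs, hzs])
    have hxz : x ≠ z := by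
      rintro rfl
      apply hxy
      exact eq_of_subset_of_card_le (fun i hi => c2 i hi hi) (by rw [hxs, hys])
    have hyz : y ≠ z := by
      rintro rfl
      apply hxy
      exact (eq_of_subset_of_card_le (fun i hi => c3 i hi hi) (by rw [hxs, hys])).symm
    apply hcon
    refine ⟨x ∩ y, ![x, y, z], ?_, ?_, ?_⟩
    · intro t
      fin_cases t
      · refine ⟨hxI, inter_subset_left, fun h => hxy ?_⟩
        exact eq_of_subset_of_card_le (fun i hi => (mem_inter.1 (h hi)).2) (by rw [hxs, hys])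
      · refine ⟨hyI, inter_subset_right, fun h => hxy ?_⟩
        exact (show y = x from
          eq_of_subset_of_card_le (fun i hi => (mem_inter.1 (h hi)).1) (by rw [hxs, hys])).symm
      · refine ⟨hzI, fun i hi => c1 i (mem_inter.1 hi).1 (mem_inter.1 hi).2, fun h => hxz ?_⟩
        exact (show z = x from
          eq_of_subset_of_card_le (fun i hi => (mem_inter.1 (h hi)).1) (by rw [hxs, hzs])).symm
    · intro t t'
      have : ∀ t : Fin 3, Ψ ((![x, y, z] : Fin 3 → Finset ι) t) = r := by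
        intro t
        fin_cases t
        · exact hxr
        · exact hyr
        · exact hzr
      rw [this, this]
    · intro t t' htt
      rw [disjoint_left]
      intro i hi hi'
      rw [mem_sdiff, mem_inter] at hi hi'
      fin_cases t <;> fin_cases t' <;> simp at hi hi' htt
      · exact hi.2 hi.1 hi'.1
      · exact hi.2 hi.1 (c2 i hi.1 hi'.1)
      · exact hi'.2 hi'.1 hi.1
      · exact hi.2 (c3 i hi.1 hi'.1) hi.1
      · exact hi'.2 hi'.1 (c2 i hi'.1 hi.1)
      · exact hi'.2 (c3 i hi'.1 hi.1) hi'.1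
  have hsl := slice3 (ι := {i // i ∈ I}) (B := {T // T ∈ 𝒯})
    (fun T i => if i.1 ∈ T.1 then 1 else 0) (by
      intro x y z
      by_cases hxyz : x = y ∧ y = z
      · rw [if_pos hxyz, hxyz.1, hxyz.2]
        symm
        apply prod_eq_one
        intro i _
        split_ifs
        · decide
        · simp
      · rw [if_neg hxyz]
        obtain ⟨i, hi⟩ := hdiag x y z hxyz
        exact (prod_eq_zero (mem_univ i) hi).symm)
  rw [Fintype.card_coe, Fintype.card_coe, ← hN] at hsl
  omega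

variable {X Q : Type} [Fintype X] [DecidableEq X] [Fintype Q] [DecidableEq Q] {k : ℕ}
variable {F : Fin k → Q → X} {nt : Q → Prop}

/-- **Existence of patterns** over a set of letters which carries a balanced weight of total
weight three. -/
theorem patt_three (i₀ : Fin k) (τ : X → Q) (hτ : ∀ i v, F i (τ v) = v) (Λ : Finset X)
    (e : Fin 3 → Q) (hnt : ∀ s, nt (e s)) (hmem : ∀ s i, F i (e s) ∈ Λ)
    (hbal : ∀ (G : Type) [AddCommGroup G] (φ : X → G) (i : Fin k),
      ∑ s, φ (F i (e s)) = ∑ s, φ (F i₀ (e s))) :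
    Patt F nt i₀ Λ fun V => 200 * ell (Fintype.card X) V := by
  classical
  intro n G _ _ f V I hV hI
  obtain ⟨R, hR, hRm⟩ := card_colors f V hV (F i₀ (e 0))
  obtain ⟨Y, S, hS, hSΨ, hd⟩ := petals_three (ell (Fintype.card X) V) (V ^ Fintype.card X)
    (one_le_ell _ _) I (fun T => fun b => ∑ c ∈ T, (f c b - f c (F i₀ (e 0)))) R hRm hR
    (pow_le_ell _ _) hI
  exact good_of_petals i₀ τ hτ Λ f I (by norm_num) e hnt hmem (fun i φ => hbal G φ i) (F i₀ (e 0))
    (hmem 0 i₀) Y S hS hSΨ hd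

lemma thr_le (g V : ℕ) (hV : V ≠ 0) :
    ((200 * ell g V : ℕ) : ℝ) ≤ 400 * (g + 1) * (1 + Real.log V) := by
  have h1 := ell_le g V hV
  push_cast
  linarith

/-- **Quasipolynomial form**, three petals. -/
theorem quasi_three (i₀ : Fin k) (h : ℕ) (h1 : 1 ≤ h)
    (H : ∀ Λ : Finset X, Λ.card = h + 1 → Patt F nt i₀ Λ fun V => 200 * ell (Fintype.card X) V) :
    ∃ C : ℝ, 0 < C ∧ ∀ (n V : ℕ) (A : Finset (Fin n → X)), 1 ≤ n → Free F nt A → Dec V A →
      (A.card : ℝ) ≤ h ^ n * Real.exp (C * (1 + Real.log V) * Real.log (n + 1)) := by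
  set K : ℕ := Fintype.card X * 2 ^ Fintype.card X with hK
  refine ⟨2 ^ Fintype.card X * (400 * (Fintype.card X + 1)) + 2 * K, by positivity, ?_⟩
  intro n V A hn hA hD
  obtain ⟨V', hV', hVV', hlog⟩ := exists_pos V
  rw [hlog]
  have hb := quasi_core (F := F) (nt := nt) i₀ h h1 _ (fun V => Nat.mul_pos (by norm_num)
    (one_le_ell _ _)) H hn hA (hD.mono hVV')
  refine hb.trans ?_
  apply mul_le_mul_of_nonneg_left _ (by positivity)
  apply Real.exp_le_exp.2
  have hnR : (1 : ℝ) ≤ n := by exact_mod_cast hn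
  have hL0 : 0 ≤ Real.log V' := Real.log_natCast_nonneg V'
  have hln : Real.log 2 ≤ Real.log ((n : ℝ) + 1) := Real.log_le_log (by norm_num) (by linarith)
  have hl2 := half_lt_log_two
  have h8 : (K : ℝ) ≤ 2 * K * (1 + Real.log V') * Real.log (n + 1) := by
    have h9 : (1 : ℝ) / 2 ≤ (1 + Real.log V') * Real.log (n + 1) := by nlinarith
    have hK0 : (0 : ℝ) ≤ K := Nat.cast_nonneg K
    calc (K : ℝ) = 2 * K * (1 / 2) := by ring
      _ ≤ 2 * K * ((1 + Real.log V') * Real.log (n + 1)) :=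
          mul_le_mul_of_nonneg_left h9 (by positivity)
      _ = _ := by ring
  have h9 : ((2 ^ Fintype.card X * (200 * ell (Fintype.card X) V') : ℕ) : ℝ) ≤
      2 ^ Fintype.card X * (400 * (Fintype.card X + 1)) * (1 + Real.log V') := by
    have h10 := thr_le (Fintype.card X) V' hV'
    push_cast at h10 ⊢
    calc (2 : ℝ) ^ Fintype.card X * (200 * (ell (Fintype.card X) V' : ℝ)) ≤
        2 ^ Fintype.card X * (400 * (Fintype.card X + 1) * (1 + Real.log V')) :=
          mul_le_mul_of_nonneg_left h10 (by positivity)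
      _ = _ := by ring
  calc (K : ℝ) + ((2 ^ Fintype.card X * (200 * ell (Fintype.card X) V') : ℕ) : ℝ) *
      Real.log (n + 1) ≤ 2 * K * (1 + Real.log V') * Real.log (n + 1) +
        2 ^ Fintype.card X * (400 * (Fintype.card X + 1)) * (1 + Real.log V') *
          Real.log (n + 1) := by
        apply add_le_add h8
        exact mul_le_mul_of_nonneg_right h9 (by linarith)
    _ = _ := by ring

/-- **Exponential form**, three petals. -/
theorem expo_three (i₀ : Fin k) (h : ℕ)
    (H : ∀ Λ : Finset X, Λ.card = h + 1 → Patt F nt i₀ Λ fun V => 200 * ell (Fintype.card X) V)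
    {ε : ℝ} (hε : 0 < ε) :
    ∃ δ : ℝ, 0 < δ ∧ ∃ n₀ : ℕ, ∀ (n V : ℕ) (A : Finset (Fin n → X)), n₀ ≤ n → Free F nt A →
      Dec V A → (V : ℝ) ≤ Real.exp (δ * n) → (A.card : ℝ) ≤ (h + ε) ^ n := by
  obtain ⟨β, hβ, hsm⟩ := small (F := F) (nt := nt) i₀ h _ (fun V => Nat.mul_pos (by norm_num)
    (one_le_ell _ _)) H hε
  set C : ℝ := 400 * (Fintype.card X + 1) with hC
  have hC0 : 0 < C := by positivity
  obtain ⟨n₀, hn₀⟩ := exists_nat_ge (2 * C / β)
  refine ⟨β / (2 * C), by positivity, n₀, ?_⟩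
  intro n V A hn hA hD hV
  have hn1 : 2 * C / β ≤ n := hn₀.trans (by exact_mod_cast hn)
  rw [div_le_iff₀ hβ] at hn1
  obtain ⟨V', hV', hVV', hL⟩ : ∃ V' : ℕ, V' ≠ 0 ∧ V ≤ V' ∧
      Real.log V' ≤ β / (2 * C) * n := by
    rcases Nat.eq_zero_or_pos V with h0 | h0
    · refine ⟨1, one_ne_zero, by omega, ?_⟩
      simp only [Nat.cast_one, Real.log_one]
      positivity
    · refine ⟨V, by omega, le_rfl, ?_⟩
      have h2 := Real.log_le_log (by exact_mod_cast h0) hV
      rwa [Real.log_exp] at h2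
  refine hsm n V' A hA (hD.mono hVV') ?_
  calc ((200 * ell (Fintype.card X) V' : ℕ) : ℝ) ≤ C * (1 + Real.log V') := thr_le _ _ hV'
    _ ≤ C * (1 + β / (2 * C) * n) := mul_le_mul_of_nonneg_left (by linarith) hC0.le
    _ = C + β / 2 * n := by field_simp
    _ ≤ β * n := by linarith

end Pool.Agent.N389.AS
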